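import Pool.Agent.MP_d50107_co.H92.Flip

namespace Pool.Agent.MP_d50107_co.H92

open Finset
open scoped FinsetFamily

variable {n : ℕ} {f : Finset (Fin n) → Prop} {c : ℚ} {k s : ℕ} {y : Fin n}
  {A B : Finset (Fin n)}

/-- the points of `A` above `y` -/
def hi (y : Fin n) (A : Finset (Fin n)) : Finset (Fin n) := A.filter fun x => y < x

@[simp] theorem mem_hi {x : Fin n} : x ∈ hi y A ↔ x ∈ A ∧ y < x := by simp [hi]

theorem card_hi (y : Fin n) (A : Finset (Fin n)) :
    ci y.val A + (if y ∈ A then 1 else 0) + (hi y A).card = A.card := by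
  rw [← ci_succ A rfl, ← card_filter_add_card_filter_not (s := A) fun x => x.val < y.val + 1]
  congr 2
  ext x
  simp only [mem_hi, mem_filter, Fin.lt_def]
  grind

theorem card_hi_compl (y : Fin n) (A : Finset (Fin n)) :
    (hi y Aᶜ).card + (hi y A).card + y.val + 1 = n := by
  have h1 := card_hi y A
  have h2 := card_hi y Aᶜ
  have h3 := ci_compl y.isLt.le A
  have h4 := card_compl_add_card A
  rw [Fintype.card_fin] at h4
  by_cases h : y ∈ A
  · rw [if_pos h] at h1
    rw [if_neg (by simpa using h)] at h2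
    omega
  · rw [if_neg h] at h1
    rw [if_pos (by simpa using h)] at h2
    omega

/-- sets that lose the property when a point below `y` is replaced by `y` -/
def asym (f : Finset (Fin n) → Prop) (y : Fin n) (A : Finset (Fin n)) : Prop :=
  y ∉ A ∧ f A ∧ ∃ x < y, x ∈ A ∧ ¬ f (sw A x y)

theorem asym.all (hs : Sym f y.val) (h : asym f y A) {x : Fin n} (hx : x < y) (hxA : x ∈ A) :
    ¬ f (sw A x y) := by
  obtain ⟨h1, -, w, h3, h4, h5⟩ := h
  by_cases e : w = x
  · rwa [← e]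
  intro hf
  have := hs _ w x h3 hx (by simp [e, h4]) (by simp [hx.ne]) hf
  refine h5 (cast (congrArg f ?_) this)
  ext z
  simp only [mem_sw]
  grind

theorem asym_ins (hg : Good f) (hs : Sym f y.val) {z : Fin n} (hz : z ∉ A) (hA : f A)
    (h : asym f y (insert z A)) : asym f y A ∧ y < z := by
  have h1 := h.1
  simp only [mem_insert, not_or] at h1
  have hyz : y < z := by
    refine lt_of_le_of_ne (not_lt.1 fun e => ?_) h1.1
    have := h.all hs e (mem_insert_self _ _)
    rw [sw, erase_insert hz] at this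
    exact this (hg.ins _ _ hA)
  obtain ⟨-, -, w, h3, h4, h5⟩ := h
  refine ⟨⟨h1.2, hA, w, h3, ?_, fun e => h5 (hg.mono (fun x => ?_) e)⟩, hyz⟩
  · exact (mem_insert.1 h4).resolve_left (h3.trans hyz).ne
  · simp only [mem_sw, mem_insert]
    grind

theorem asym_shf (hg : Good f) (hs : Sym f y.val) {u v : Fin n} (hvu : v < u) (hu : u ∈ A)
    (hv : v ∉ A) (hA : f A) (h : asym f y (sw A u v)) : asym f y A ∧ (u < y ∨ y < v) := by
  have h1 := h.1
  simp only [mem_sw, not_or, not_and] at h1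
  rcases lt_or_gt_of_ne h1.1 with hyv | hyv
  · obtain ⟨-, -, w, h3, h4, h5⟩ := h
    have hyA : y ∉ A := h1.2 (hyv.trans hvu).ne
    have hw : w ∈ A := by
      rw [mem_sw] at h4
      exact (h4.resolve_left (h3.trans hyv).ne).2
    refine ⟨⟨hyA, hA, w, h3, hw, fun e => h5 ?_⟩, Or.inr hyv⟩
    have := hg.shf _ u v hvu (by simp only [mem_sw]; grind) (by simp only [mem_sw]; grind) e
    refine cast (congrArg f ?_) this
    ext z
    simp only [mem_sw]
    grind
  · have h2 := h.all hs hyv (by simp)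
    rcases lt_trichotomy u y with e | e | e
    · refine ⟨⟨h1.2 e.ne', hA, u, e, hu, fun h3 => h2 (cast (congrArg f ?_) h3)⟩, Or.inl e⟩
      ext z
      simp only [mem_sw]
      grind
    · subst e
      rw [sw_sw hu hv] at h2
      exact (h2 hA).elim
    · refine (h2 (cast (congrArg f ?_) (hg.shf A u y e hu (h1.2 e.ne) hA))).elim
      ext z
      simp only [mem_sw]
      grind

theorem asym_dual (hg : Good f) (hs : Sym f y.val) (h : asym f y A) {x : Fin n} (hx : x < y)
    (hxA : x ∈ A) : asym f y (sw A x y)ᶜ := by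
  refine ⟨by simp, (hg.dual _).2 (h.all hs hx hxA), x, hx, by simp [hx.ne], ?_⟩
  rw [sw_compl_sw hxA h.1, hg.dual]
  exact fun e => e h.2.1

theorem asym_back (hg : Good f) (hs : Sym f y.val) (h : asym f y Bᶜ) {x : Fin n} (hx : x < y)
    (hxB : x ∉ B) : asym f y (sw B y x) := by
  have := asym_dual hg hs h hx (mem_compl.2 hxB)
  rwa [compl_sw (mem_compl.2 hxB) h.1, compl_compl] at this

theorem asym_sym (hs : Sym f y.val) : Sym (asym f y) y.val := by
  intro A u v a b d e h
  have a' : u < y := a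
  have b' : v < y := b
  refine ⟨by simp [b'.ne', h.1], hs A u v a b d e h.2.1, v, b', by simp,
    fun h3 => h.all hs a' d (cast (congrArg f ?_) h3)⟩
  ext z
  simp only [mem_sw]
  grind

theorem asym_dep (hg : Good f) (he : Ext f s) (hy : y.val < s) : Dep (asym f y) s := by
  rintro A B h ⟨h1, h2, w, h3, h4, h5⟩
  refine ⟨fun e => h1 ((h y hy).2 e), ext_mono hg he (fun x a b => (h x a).1 b) h2, w, h3,
    (h w (lt_trans h3 hy)).1 h4, fun e => h5 (ext_mono hg he (fun x a => ?_) e)⟩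
  simp only [mem_sw, h x a]
  exact id

theorem sym_succ (hg : Good f) (hs : Sym f y.val) (h : ∀ A, ¬ asym f y A) :
    Sym f (y.val + 1) := by
  intro A u v a b d e hA
  by_cases hvu : v < u
  · exact hg.shf A u v hvu d e hA
  by_cases hv : v.val < y.val
  · exact hs A u v (lt_of_le_of_lt (not_lt.1 hvu) hv) hv d e hA
  obtain rfl : v = y := Fin.ext (by omega)
  by_contra hc
  exact h A ⟨e, hA, u, lt_of_le_of_ne (not_lt.1 hvu) fun e' => e (e' ▸ d), d, hc⟩

/-- `τ` depends on the points above `y` only -/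
def Tl (τ : Finset (Fin n) → Prop) (y : Fin n) : Prop :=
  ∀ A B, (∀ x, y < x → (x ∈ A ↔ x ∈ B)) → τ A → τ B

variable {τ : Finset (Fin n) → Prop} {i : ℕ}

theorem Tl.sw (h : Tl τ y) {u v : Fin n} (hu : u ≤ y) (hv : v ≤ y) (hA : τ A) : τ (sw A u v) :=
  h A _ (fun x hx => by simp only [mem_sw]; grind) hA

theorem push_card (hg : Good f) (hs : Sym f y.val) (hτ : Tl τ y) :
    ((i : ℚ) + 1) * (lev k fun A => asym f y A ∧ τ A ∧ ci y.val A = i + 1).card =
      ((y.val : ℚ) - i) * (lev k fun B => asym f y Bᶜ ∧ τ B ∧ ci y.val B = i).card := by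
  have := dc (lev k fun A => asym f y A ∧ τ A ∧ ci y.val A = i + 1)
    (lev k fun B => asym f y Bᶜ ∧ τ B ∧ ci y.val B = i) (lo y.val) (fun B => lo y.val Bᶜ)
    (fun A x => sw A x y) (fun B x => sw B y x) (fun _ => 1) (fun _ => 1)
    (fun A hA x hx => ?_) (fun B hB x hx => ?_)
  · rw [mul_comm, mul_comm ((y.val : ℚ) - i), ← nsmul_eq_mul, ← nsmul_eq_mul, ← sum_const,
      ← sum_const]
    refine (sum_congr rfl fun A hA => ?_).trans (this.trans (sum_congr rfl fun B hB => ?_))
    · rw [mul_one]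
      exact_mod_cast (mem_lev.1 hA).2.2.2.symm
    · have h1 := ci_compl y.isLt.le B
      rw [(mem_lev.1 hB).2.2.2] at h1
      rw [mul_one, eq_sub_iff_add_eq]
      exact_mod_cast h1
  · rw [mem_lev] at hA
    rw [mem_lo] at hx
    obtain ⟨a1, a2, a3, a4⟩ := hA
    have hxy : x < y := hx.2
    have := ci_sw_up hx.1 hx.2 (le_refl y.val)
    exact ⟨mem_lev.2 ⟨(card_sw hx.1 a2.1).trans a1, asym_dual hg hs a2 hxy hx.1,
      hτ.sw hxy.le le_rfl a3, by omega⟩, by simp [hx.2, hxy.ne], sw_sw hx.1 a2.1, rfl⟩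
  · rw [mem_lev] at hB
    simp only [mem_lo, mem_compl] at hx
    obtain ⟨a1, a2, a3, a4⟩ := hB
    have hxy : x < y := hx.2
    have hy : y ∈ B := by simpa using a2.1
    have := ci_sw_down hx.1 (le_refl y.val) hx.2
    exact ⟨mem_lev.2 ⟨(card_sw hy hx.1).trans a1, asym_back hg hs a2 hxy hx.1,
      hτ.sw le_rfl hxy.le a3, by omega⟩, by simp [hx.2], sw_sw hy hx.1⟩

theorem wt_X (hs : Sym f y.val) (hτ : Tl τ y) :
    wt c (lev k fun A => asym f y A ∧ τ A ∧ ci y.val A = i) =
      (lev k fun A => asym f y A ∧ τ A ∧ ci y.val A = i).card * (c - rr y.val i) := by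
  rw [wt_av c y.isLt.le (fun A hA u v a b d e => ?_) fun A hA => ⟨y, le_rfl, (mem_lev.1 hA).2.1.1⟩,
    ← nsmul_eq_mul, ← sum_const]
  · exact sum_congr rfl fun A hA => by rw [(mem_lev.1 hA).2.2.2]
  · rw [mem_lev] at hA ⊢
    exact ⟨(card_sw d e).trans hA.1, asym_sym hs A u v a b d e hA.2.1,
      hτ.sw (le_of_lt a) (le_of_lt b) hA.2.2.1, (ci_sw_in d e a b).trans hA.2.2.2⟩

theorem wt_Y (hs : Sym f y.val) (hτ : Tl τ y) :
    wt c (lev k fun B => asym f y Bᶜ ∧ τ B ∧ ci y.val B = i) =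
      (lev k fun B => asym f y Bᶜ ∧ τ B ∧ ci y.val B = i).card * (c - rr y.val i) := by
  rw [wt_av c y.isLt.le (fun A hA u v a b d e => ?_) fun A hA => ?_,
    ← nsmul_eq_mul, ← sum_const]
  · exact sum_congr rfl fun A hA => by rw [(mem_lev.1 hA).2.2.2]
  · rw [mem_lev] at hA ⊢
    refine ⟨(card_sw d e).trans hA.1, ?_,
      hτ.sw (le_of_lt a) (le_of_lt b) hA.2.2.1, (ci_sw_in d e a b).trans hA.2.2.2⟩
    rw [compl_sw d e]
    exact asym_sym hs _ v u b a (mem_compl.2 e) (by simpa using d) hA.2.1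
  · obtain ⟨-, -, w, h1, h2, -⟩ := (mem_lev.1 hA).2.1
    exact ⟨w, le_of_lt h1, mem_compl.1 h2⟩

theorem ci_of_asym_shf {u v : Fin n} (hvu : v < u) (hu : u ∈ A) (hv : v ∉ A)
    (h : u < y ∨ y < v) : ci y.val (sw A u v) = ci y.val A := by
  rcases h with h | h
  · exact ci_sw_in hu hv h (lt_trans hvu h)
  · exact ci_sw_out (le_of_lt (h.trans hvu)) (le_of_lt h)

theorem ci_insert_out {l : ℕ} {z : Fin n} (h : l ≤ z.val) : ci l (insert z A) = ci l A :=
  ci_congr fun x hx => by simp only [mem_insert]; grind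

theorem tl_true : Tl (fun _ => True) y := fun _ _ _ h => h

theorem flip_class (hg : Good f) (hs : Sym f y.val) (ho : Opt c k (lev k f)) {i' : ℕ}
    (h : i + i' + 1 = y.val) (hne : i ≠ i') :
    wt c (lev k fun B => asym f y Bᶜ ∧ True ∧ ci y.val B = i') ≤
      wt c (lev k fun A => asym f y A ∧ True ∧ ci y.val A = i + 1) := by
  have := K1' (R := fun A => asym f y A ∧ True ∧ ci y.val A = i + 1) hg ho (fun A h => h.1.2.1)
    (flip_good hg (fun A h => h.1.2.1) (fun A z a b d => ?_) (fun A u v a b d e g => ?_)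
      (fun A z a b d => ?_) fun A u v a b d e g => ?_)
  · refine le_trans (le_of_eq (congrArg _ (lev_congr fun A _ => ?_))) this
    have := ci_compl y.isLt.le A
    refine and_congr_right fun _ => and_congr_right fun _ => ?_
    omega
  · obtain ⟨h1, h2⟩ := asym_ins hg hs a b d.1
    exact ⟨h1, trivial, (ci_insert_out (le_of_lt h2)).symm.trans d.2.2⟩
  · obtain ⟨h1, h2⟩ := asym_shf hg hs a b d e g.1
    exact ⟨h1, trivial, (ci_of_asym_shf a b d h2).symm.trans g.2.2⟩
  · exact d.1.1 (mem_insert_of_mem (by simpa using b.1.1))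
  · have h1 : y ∈ A := by simpa using e.1.1
    have h2 := g.1.1
    obtain rfl : y = u := by simp only [mem_sw] at h2; grind
    have := ci_sw_down d (le_refl y.val) a
    have := ci_compl y.isLt.le A
    have := e.2.2
    have := g.2.2
    omega

theorem rr_lt {l i : ℕ} (h : i < l) : rr l i < rr l (i + 1) := by
  unfold rr
  have h' : (i : ℚ) + 1 ≤ l := by exact_mod_cast h
  have : (0 : ℚ) ≤ i := Nat.cast_nonneg i
  push_cast
  rw [div_lt_div_iff₀ (by linarith) (by linarith)]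
  nlinarith

theorem asym_class (hg : Good f) (hs : Sym f y.val) (ho : Opt c k (lev k f)) (hA : A.card = k)
    (h : asym f y A) : 2 * ci y.val A = y.val + 1 := by
  by_contra hc
  obtain ⟨i, hi⟩ : ∃ i, ci y.val A = i + 1 := by
    obtain ⟨-, -, w, h1, h2, -⟩ := h
    have : 0 < ci y.val A := card_pos.2 ⟨w, mem_lo.2 ⟨h2, h1⟩⟩
    exact ⟨ci y.val A - 1, by omega⟩
  obtain ⟨i', hi'⟩ : ∃ i', i + i' + 1 = y.val := by
    have := ci_compl y.isLt.le A
    exact ⟨ci y.val Aᶜ, by omega⟩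
  have h1 := flip_class hg hs ho hi' (by omega)
  have h2 := flip_class (i := i') (i' := i) hg hs ho (by omega) (by omega)
  have h3 := push_card (k := k) (i := i) hg hs tl_true
  have h4 := push_card (k := k) (i := i') hg hs tl_true
  rw [wt_X hs tl_true, wt_Y hs tl_true] at h1 h2
  have h5 : 0 < (lev k fun A => asym f y A ∧ True ∧ ci y.val A = i + 1).card :=
    card_pos.2 ⟨A, mem_lev.2 ⟨hA, h, trivial, hi⟩⟩
  have h6 := rr_lt (l := y.val) (i := i) (by omega)
  have h7 := rr_lt (l := y.val) (i := i') (by omega)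
  have e : (y.val : ℚ) = i + i' + 1 := by exact_mod_cast hi'.symm
  rw [e] at h3 h4
  have h5' : (0 : ℚ) < (lev k fun A => asym f y A ∧ True ∧ ci y.val A = i + 1).card := by
    exact_mod_cast h5
  have h8 : (0 : ℚ) ≤ (lev k fun B => asym f y Bᶜ ∧ True ∧ ci y.val B = i').card :=
    Nat.cast_nonneg _
  generalize ((lev k fun A => asym f y A ∧ True ∧ ci y.val A = i + 1).card : ℚ) = N at *
  generalize ((lev k fun A => asym f y A ∧ True ∧ ci y.val A = i' + 1).card : ℚ) = N' at *
  generalize ((lev k fun B => asym f y Bᶜ ∧ True ∧ ci y.val B = i').card : ℚ) = P' at *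
  generalize ((lev k fun B => asym f y Bᶜ ∧ True ∧ ci y.val B = i).card : ℚ) = P at *
  have p1 : (0 : ℚ) < i + 1 := by positivity
  have p2 : (0 : ℚ) < i' + 1 := by positivity
  have h9 : N * (c - rr y.val i) ≤ P' * (c - rr y.val (i' + 1)) := by
    refine le_of_mul_le_mul_left ?_ p1
    have := mul_le_mul_of_nonneg_left h2 p2.le
    calc (i + 1) * (N * (c - rr y.val i)) = (i' + 1) * (P * (c - rr y.val i)) := by
          linear_combination (c - rr y.val i) * h3
      _ ≤ _ := this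
      _ = _ := by linear_combination (c - rr y.val (i' + 1)) * h4
  nlinarith [mul_pos h5' (sub_pos.2 h6), mul_nonneg h8 (sub_pos.2 h7).le]

theorem exists_sym_succ (hg : Good f) (he : Ext f s) (hs : Sym f y.val) (hy : y.val + 1 < s)
    (hn : s ≤ n) (h : ∀ A, A.card = k → ¬ asym f y A) :
    ∃ g, Good g ∧ lev k g = lev k f ∧ Ext g s ∧ Sym g (y.val + 1) := by
  obtain ⟨z, hz⟩ : ∃ z : Fin n, z.val = y.val + 1 := ⟨⟨y.val + 1, by omega⟩, rfl⟩
  have hyz : y < z := by rw [Fin.lt_def]; omega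
  have hg' : Good (flip f fun A => asym f y A ∧ z ∉ A) := by
    refine flip_good hg (fun A h => h.1.2.1) (fun A w a b d => ?_) (fun A u v a b d e g => ?_)
      (fun A w a b d => ?_) fun A u v a b d e g => ?_
    · exact ⟨(asym_ins hg hs a b d.1).1, fun e => d.2 (mem_insert_of_mem e)⟩
    · obtain ⟨h1, h2⟩ := asym_shf hg hs a b d e g.1
      refine ⟨h1, fun h3 => g.2 ?_⟩
      simp only [mem_sw, Fin.lt_def, ne_eq, Fin.ext_iff] at a h2 ⊢
      exact Or.inr ⟨by omega, h3⟩
    · exact d.1.1 (mem_insert_of_mem (by simpa using b.1.1))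
    · have h1 : y ∈ A := by simpa using e.1.1
      have h2 : z ∈ A := by simpa using e.2
      have h3 := g.1.1
      have h4 := g.2
      simp only [mem_sw] at h3 h4
      grind
  refine ⟨_, hg', lev_flip (fun A a b => h A a b.1) fun A a b => ?_, he.flip fun A B a b => ?_,
    sym_succ hg' (hs.flip fun A u v a b d e g => ?_) ?_⟩
  · obtain ⟨h1, -, w, h3, h4, -⟩ := id b.1
    rw [mem_compl] at h1 h4
    exact h _ ((card_sw (not_not.1 h1) h4).trans a) (asym_back hg hs b.1 h3 h4)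
  · exact ⟨asym_dep hg he (by omega) A B a b.1, fun e => b.2 ((a z (by omega)).2 e)⟩
  · refine ⟨asym_sym hs A u v a b d e g.1, ?_⟩
    have := g.2
    simp only [mem_sw]
    grind
  · rintro A ⟨h1, h2, w, h3, h4, h5⟩
    have h6 : f A ∧ ¬ (asym f y A ∧ z ∉ A) := h2.resolve_right fun e => e.1.1 (mem_compl.2 h1)
    have h7 : asym f y A := ⟨h1, h6.1, w, h3, h4, fun e => h5 (Or.inl ⟨e, fun e' => e'.1.1 (by simp)⟩)⟩
    refine h5 (Or.inr ⟨asym_dual hg hs h7 h3 h4, ?_⟩)
    have : z ∈ A := by_contra fun e => h6.2 ⟨h7, e⟩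
    simp only [mem_compl, mem_sw]
    grind

theorem z_one (hg : Good f) (hs : Sym f y.val) (ho : Opt c k (lev k f)) (hy : y.val = 2 * i + 1)
    {z : Fin n} (hz : y < z) :
    (lev k fun A => asym f y A ∧ z ∈ A ∧ ci y.val A = i + 1).card * (c - i / (i + 2)) ≤
      (lev k fun A => asym f y A ∧ z ∉ A ∧ ci y.val A = i + 1).card * (c - 1) := by
  have t1 : Tl (fun A => z ∈ A) y := fun A B a b => (a z hz).1 b
  have t2 : Tl (fun A => z ∉ A) y := fun A B a b e => b ((a z hz).2 e)
  have h1 := K1 (R := fun A => asym f y A ∧ z ∉ A ∧ ci y.val A = i + 1) hg ho (fun A h => h.1.2.1)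
    (flip_ins hg (fun A w a b d => ?_) fun A w a b d => ?_) ∅ fun A _ u hu m hm hf hA => ?_
  · have e : (lev k fun A => asym f y Aᶜ ∧ z ∉ Aᶜ ∧ ci y.val Aᶜ = i + 1) =
        lev k fun B => asym f y Bᶜ ∧ z ∈ B ∧ ci y.val B = i := lev_congr fun A _ => by
      have := ci_compl y.isLt.le A
      refine and_congr_right fun _ => and_congr (by simp) ?_
      omega
    have h2 := push_card (k := k) (i := i) hg hs t1
    rw [e, wt_X hs t2, wt_Y hs t1] at h1
    have e1 : (y.val : ℚ) = 2 * i + 1 := by exact_mod_cast hy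
    have p1 : (0 : ℚ) < i + 1 := by positivity
    have e2 : rr y.val (i + 1) = 1 := by
      rw [rr, e1, div_eq_one_iff_eq] <;> push_cast
      · ring
      · linarith
    have e3 : rr y.val i = i / (i + 2) := by
      rw [rr, e1]
      congr 1
      ring
    rw [e1, show (2 * (i : ℚ) + 1 - i) = i + 1 by ring] at h2
    rw [mul_left_cancel₀ p1.ne' h2, ← e2, ← e3]
    simpa using h1
  · obtain ⟨h1, h2⟩ := asym_ins hg hs a b d.1
    exact ⟨h1, fun e => d.2.1 (mem_insert_of_mem e), (ci_insert_out (le_of_lt h2)).symm.trans d.2.2⟩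
  · exact d.1.1 (mem_insert_of_mem (by simpa using b.1.1))
  · refine Or.inl (flip_step hg.dual (hg.shf A u m hm hu hf.1) (fun a b => ?_) (fun a b => ?_)
      (fun a b => ?_) hA)
    · obtain ⟨h1, h2⟩ := asym_shf hg hs hm hu hf.1 a b.1
      refine ⟨h1, fun h3 => b.2.1 ?_, (ci_of_asym_shf hm hu hf.1 h2).symm.trans b.2.2⟩
      have := hf.2 y
      have := h1.1
      simp only [mem_sw]
      grind
    · rw [← sw_compl_sw hu hf.1] at b
      have b1 : u ∈ (sw A u m)ᶜ := by simp [hm.ne']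
      have b2 : m ∉ (sw A u m)ᶜ := by simp
      obtain ⟨h1, h2⟩ := asym_shf hg hs hm b1 b2 a b.1
      refine ⟨h1, fun h3 => b.2.1 ?_, (ci_of_asym_shf hm b1 b2 h2).symm.trans b.2.2⟩
      obtain ⟨-, -, w, h4, h5, -⟩ := h1
      have := hf.2 w
      simp only [mem_sw, mem_compl] at h3 h5 ⊢
      grind
    · have h1 : y ∈ A := by simpa using a.1.1
      have h2 : z ∈ A := by simpa using a.2.1
      have h3 := b.1.1
      have h4 := b.2.1
      simp only [mem_sw] at h3 h4
      grind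

theorem sum_card_mem (𝒳 : Finset (Finset (Fin n))) (T : Finset (Fin n))
    (g : Finset (Fin n) → Finset (Fin n)) :
    ∑ z ∈ T, ((𝒳.filter fun A => z ∈ g A).card : ℚ) = ∑ A ∈ 𝒳, ((T ∩ g A).card : ℚ) := by
  simp only [card_filter, ← filter_mem_eq_inter, Nat.cast_sum]
  exact sum_comm

theorem z_move (hg : Good f) (hs : Sym f y.val) (ho : Opt c k (lev k f)) (hy : y.val = 2 * i + 1)
    (hA : A.card = k) (h : asym f y A) :
    2 * ((k : ℚ) - (i + 1)) ≤ (i + 2) * (n - 2 * k) * (c - 1) := by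
  have hci : ci y.val A = i + 1 := by have := asym_class hg hs ho hA h; omega
  set 𝒳 := lev k fun A => asym f y A ∧ True ∧ ci y.val A = i + 1 with hX
  have h1 : ∑ z ∈ hi y univ, ((𝒳.filter fun A => z ∈ A).card : ℚ) * (c - i / (i + 2)) ≤
      ∑ z ∈ hi y univ, ((𝒳.filter fun A => z ∈ Aᶜ).card : ℚ) * (c - 1) := by
    refine sum_le_sum fun z hz => ?_
    convert z_one hg hs ho hy (mem_hi.1 hz).2 using 4 <;> ext A <;>
      simp only [hX, mem_filter, mem_lev, mem_compl] <;> tauto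
  rw [← sum_mul, ← sum_mul, sum_card_mem 𝒳 _ fun A => A, sum_card_mem 𝒳 _ fun A => Aᶜ] at h1
  have e : ∀ B : Finset (Fin n), hi y univ ∩ B = H92.hi y B := fun B => by
    ext x
    simp only [mem_inter, mem_hi, mem_univ]
    tauto
  have h2 : ∀ B ∈ 𝒳, ((hi y univ ∩ B).card : ℚ) = k - (i + 1) ∧
      ((hi y univ ∩ Bᶜ).card : ℚ) = n - k - (i + 1) := by
    intro B hB
    rw [hX, mem_lev] at hB
    have a1 := card_hi y B
    have a2 := card_hi_compl y B
    rw [if_neg hB.2.1.1, hB.2.2.2, hB.1] at a1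
    rw [e, e]
    have a3 : (H92.hi y Bᶜ).card + k + (i + 1) = n := by omega
    have a4 : (H92.hi y B).card + (i + 1) = k := by omega
    constructor
    · rw [eq_sub_iff_add_eq]
      exact_mod_cast a4
    · rw [eq_sub_iff_add_eq, eq_sub_iff_add_eq]
      exact_mod_cast (by omega)
  rw [sum_congr rfl fun B hB => (h2 B hB).1, sum_congr rfl fun B hB => (h2 B hB).2, sum_const,
    sum_const, nsmul_eq_mul, nsmul_eq_mul, mul_assoc, mul_assoc] at h1
  have h5 : (0 : ℚ) < 𝒳.card :=
    Nat.cast_pos.2 (card_pos.2 ⟨A, mem_lev.2 ⟨hA, h, trivial, hci⟩⟩)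
  have h3 := le_of_mul_le_mul_left h1 h5
  have p1 : (0 : ℚ) < i + 2 := by positivity
  have h4 := mul_le_mul_of_nonneg_left h3 p1.le
  have e4 : ((i : ℚ) + 2) * (i / (i + 2)) = i := mul_div_cancel₀ _ p1.ne'
  nlinarith

end Pool.Agent.MP_d50107_co.H92
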