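import Pool.Agent.MP_d50107_co.H54.Katona

namespace Pool.Agent.MP_d50107_co.H92

open Finset
open scoped FinsetFamily

variable {n : ℕ}

/-- replace `x` by `y` -/
def sw (A : Finset (Fin n)) (x y : Fin n) : Finset (Fin n) := insert y (A.erase x)

@[simp] theorem mem_sw {A : Finset (Fin n)} {x y z : Fin n} :
    z ∈ sw A x y ↔ z = y ∨ (z ≠ x ∧ z ∈ A) := by simp [sw]

theorem card_sw {A : Finset (Fin n)} {x y : Fin n} (hx : x ∈ A) (hy : y ∉ A) :
    (sw A x y).card = A.card := H54.card_swap hx hy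

theorem sw_sw {A : Finset (Fin n)} {x y : Fin n} (hx : x ∈ A) (hy : y ∉ A) :
    sw (sw A x y) y x = A := by
  ext z
  simp only [mem_sw]
  grind

theorem compl_sw {A : Finset (Fin n)} {x y : Fin n} (hx : x ∈ A) (hy : y ∉ A) :
    (sw A x y)ᶜ = sw Aᶜ y x := by
  ext z
  simp only [mem_sw, mem_compl]
  grind

/-- the points of `A` below `l` -/
def lo (l : ℕ) (A : Finset (Fin n)) : Finset (Fin n) := A.filter fun x => x.val < l

@[simp] theorem mem_lo {l : ℕ} {A : Finset (Fin n)} {x : Fin n} :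
    x ∈ lo l A ↔ x ∈ A ∧ x.val < l := by simp [lo]

/-- the number of points of `A` below `l` -/
def ci (l : ℕ) (A : Finset (Fin n)) : ℕ := (lo l A).card

theorem ci_univ {l : ℕ} (h : l ≤ n) : ci l (univ : Finset (Fin n)) = l := by
  unfold ci lo
  have : (univ.filter fun x : Fin n => x.val < l) = (univ : Finset (Fin l)).map
      (Fin.castLEEmb h) := by
    ext x
    simp only [mem_filter, mem_univ, true_and, mem_map, Fin.castLEEmb_apply]
    exact ⟨fun hx => ⟨⟨x.val, hx⟩, rfl⟩, fun ⟨y, hy⟩ => hy ▸ y.isLt⟩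
  rw [this, card_map, card_univ, Fintype.card_fin]

theorem ci_compl {l : ℕ} (h : l ≤ n) (A : Finset (Fin n)) : ci l Aᶜ + ci l A = l := by
  refine Eq.trans ?_ (ci_univ h)
  unfold ci
  rw [← card_union_of_disjoint]
  · congr 1
    ext x
    simp only [mem_union, mem_lo, mem_compl, mem_univ]
    tauto
  · rw [disjoint_left]
    intro x h1 h2
    simp only [mem_lo, mem_compl] at h1 h2
    exact h1.1 h2.1

theorem ci_le_card (l : ℕ) (A : Finset (Fin n)) : ci l A ≤ A.card := card_filter_le _ _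

theorem ci_congr {l : ℕ} {A B : Finset (Fin n)} (h : ∀ x : Fin n, x.val < l → (x ∈ A ↔ x ∈ B)) :
    ci l A = ci l B := by
  unfold ci
  congr 1
  ext x
  simp only [mem_lo]
  grind

theorem ci_mono {l : ℕ} {A B : Finset (Fin n)} (h : ∀ x : Fin n, x.val < l → x ∈ A → x ∈ B) :
    ci l A ≤ ci l B := by
  unfold ci
  refine card_le_card fun x hx => ?_
  simp only [mem_lo] at hx ⊢
  exact ⟨h x hx.2 hx.1, hx.2⟩

theorem ci_insert {l : ℕ} {A : Finset (Fin n)} {x : Fin n} (hx : x ∉ A) (hl : x.val < l) :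
    ci l (insert x A) = ci l A + 1 := by
  unfold ci
  rw [← card_insert_of_notMem (a := x) (by simp [hx])]
  congr 1
  ext z
  simp only [mem_lo, mem_insert]
  grind

theorem ci_erase {l : ℕ} {A : Finset (Fin n)} {x : Fin n} (hx : x ∈ A) (hl : x.val < l) :
    ci l (A.erase x) + 1 = ci l A := by
  rw [← ci_insert (notMem_erase x A) hl, insert_erase hx]

theorem ci_sw_in {l : ℕ} {A : Finset (Fin n)} {x y : Fin n} (hx : x ∈ A) (hy : y ∉ A)
    (h1 : x.val < l) (h2 : y.val < l) : ci l (sw A x y) = ci l A := by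
  rw [← ci_erase hx h1, ← ci_insert (x := y) (by simp [hy]) h2]
  rfl

theorem ci_sw_out {l : ℕ} {A : Finset (Fin n)} {x y : Fin n}
    (h1 : l ≤ x.val) (h2 : l ≤ y.val) : ci l (sw A x y) = ci l A :=
  ci_congr fun z hz => by
    simp only [mem_sw]
    grind

theorem ci_sw_up {l : ℕ} {A : Finset (Fin n)} {x y : Fin n} (hx : x ∈ A)
    (h1 : x.val < l) (h2 : l ≤ y.val) : ci l (sw A x y) + 1 = ci l A := by
  rw [← ci_erase hx h1]
  congr 1
  exact ci_congr fun z hz => by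
    simp only [mem_sw, mem_erase]
    grind

theorem ci_sw_down {l : ℕ} {A : Finset (Fin n)} {x y : Fin n} (hy : y ∉ A)
    (h1 : l ≤ x.val) (h2 : y.val < l) : ci l (sw A x y) = ci l A + 1 := by
  rw [← ci_insert hy h2]
  exact ci_congr fun z hz => by
    simp only [mem_sw, mem_insert]
    grind

theorem ci_succ {l : ℕ} (A : Finset (Fin n)) {y : Fin n} (hy : y.val = l) :
    ci (l + 1) A = ci l A + if y ∈ A then 1 else 0 := by
  unfold ci
  split_ifs with h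
  · rw [← card_insert_of_notMem (a := y) (by simp [hy])]
    congr 1
    ext z
    simp only [mem_lo, mem_insert]
    grind
  · rw [add_zero]
    congr 1
    ext z
    simp only [mem_lo]
    grind

/-- double counting -/
theorem dc (𝒳 𝒴 : Finset (Finset (Fin n))) (D E : Finset (Fin n) → Finset (Fin n))
    (φ ψ : Finset (Fin n) → Fin n → Finset (Fin n)) (g g' : Finset (Fin n) → ℚ)
    (h1 : ∀ A ∈ 𝒳, ∀ x ∈ D A, φ A x ∈ 𝒴 ∧ x ∈ E (φ A x) ∧ ψ (φ A x) x = A ∧ g A = g' (φ A x))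
    (h2 : ∀ B ∈ 𝒴, ∀ x ∈ E B, ψ B x ∈ 𝒳 ∧ x ∈ D (ψ B x) ∧ φ (ψ B x) x = B) :
    ∑ A ∈ 𝒳, ((D A).card : ℚ) * g A = ∑ B ∈ 𝒴, ((E B).card : ℚ) * g' B := by
  have e1 : ∑ A ∈ 𝒳, ((D A).card : ℚ) * g A = ∑ p ∈ 𝒳.sigma D, g p.1 := by
    rw [sum_sigma]
    simp
  have e2 : ∑ B ∈ 𝒴, ((E B).card : ℚ) * g' B = ∑ p ∈ 𝒴.sigma E, g' p.1 := by
    rw [sum_sigma]
    simp
  rw [e1, e2]
  refine sum_nbij' (fun p => ⟨φ p.1 p.2, p.2⟩) (fun p => ⟨ψ p.1 p.2, p.2⟩) ?_ ?_ ?_ ?_ ?_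
  · rintro ⟨A, x⟩ hp
    rw [mem_sigma] at hp ⊢
    exact ⟨(h1 A hp.1 x hp.2).1, (h1 A hp.1 x hp.2).2.1⟩
  · rintro ⟨A, x⟩ hp
    rw [mem_sigma] at hp ⊢
    exact ⟨(h2 A hp.1 x hp.2).1, (h2 A hp.1 x hp.2).2.1⟩
  · rintro ⟨A, x⟩ hp
    rw [mem_sigma] at hp
    simp only [(h1 A hp.1 x hp.2).2.2.1]
  · rintro ⟨A, x⟩ hp
    rw [mem_sigma] at hp
    simp only [(h2 A hp.1 x hp.2).2.2]
  · rintro ⟨A, x⟩ hp
    rw [mem_sigma] at hp
    exact (h1 A hp.1 x hp.2).2.2.2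

/-- the length of the initial run of `A` -/
def iota (A : Finset (Fin n)) : ℕ := (A.filter fun x => ∀ y < x, y ∈ A).card

/-- `m` is the first point missing from `L` -/
def fm (L : Finset (Fin n)) (m : Fin n) : Prop := m ∉ L ∧ ∀ y < m, y ∈ L

theorem fm.unique {L : Finset (Fin n)} {m m' : Fin n} (h : fm L m) (h' : fm L m') : m = m' := by
  rcases lt_trichotomy m m' with e | e | e
  · exact (h.1 (h'.2 m e)).elim
  · exact e
  · exact (h'.1 (h.2 m' e)).elim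

theorem exists_fm {L : Finset (Fin n)} {x : Fin n} (hx : x ∉ L) : ∃ m, m ≤ x ∧ fm L m := by
  have hne : (Lᶜ).Nonempty := ⟨x, mem_compl.2 hx⟩
  refine ⟨Lᶜ.min' hne, min'_le _ _ (mem_compl.2 hx), mem_compl.1 (min'_mem _ hne), fun y hy => ?_⟩
  by_contra h
  exact absurd (min'_le _ _ (mem_compl.2 h)) (not_le.2 hy)

open Classical in
/-- the canonical part of the shadow -/
noncomputable def can (𝒜 : Finset (Finset (Fin n))) : Finset (Finset (Fin n)) :=
  univ.filter fun L => ∃ m, fm L m ∧ insert m L ∈ 𝒜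

theorem mem_can {𝒜 : Finset (Finset (Fin n))} {L : Finset (Fin n)} :
    L ∈ can 𝒜 ↔ ∃ m, fm L m ∧ insert m L ∈ 𝒜 := by simp [can]

theorem sum_iota (𝒜 : Finset (Finset (Fin n))) :
    ∑ A ∈ 𝒜, (iota A : ℚ) = (can 𝒜).card := by
  classical
  have := dc 𝒜 (can 𝒜) (fun A => A.filter fun x => ∀ y < x, y ∈ A)
    (fun L => univ.filter fun m => fm L m) (fun A x => A.erase x) (fun L x => insert x L)
    (fun _ => 1) (fun _ => 1) (fun A hA x hx => ?_) (fun L hL x hx => ?_)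
  · simp only [mul_one] at this
    unfold iota
    rw [this, card_eq_sum_ones, Nat.cast_sum]
    refine sum_congr rfl fun L hL => ?_
    obtain ⟨m, hm, -⟩ := mem_can.1 hL
    congr 1
    rw [card_eq_one]
    refine ⟨m, ?_⟩
    ext z
    simp only [mem_filter, mem_univ, true_and, mem_singleton]
    exact ⟨fun h => h.unique hm, fun h => h ▸ hm⟩
  · rw [mem_filter] at hx
    have hf : fm (A.erase x) x := ⟨notMem_erase _ _, fun y hy => mem_erase.2 ⟨hy.ne, hx.2 y hy⟩⟩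
    exact ⟨mem_can.2 ⟨x, hf, by rwa [insert_erase hx.1]⟩, by simpa using hf, insert_erase hx.1, rfl⟩
  · obtain ⟨m, hm, hm'⟩ := mem_can.1 hL
    have hx' : fm L x := by simpa using hx
    obtain rfl := hm.unique hx'
    exact ⟨hm', mem_filter.2 ⟨mem_insert_self _ _, fun y hy => mem_insert_of_mem (hm.2 y hy)⟩,
      erase_insert hm.1⟩

theorem can_subset (𝒜 : Finset (Finset (Fin n))) : can 𝒜 ⊆ ∂ 𝒜 := fun L hL => by
  obtain ⟨m, hm, hm'⟩ := mem_can.1 hL
  exact mem_shadow_iff_insert_mem.2 ⟨m, hm.1, hm'⟩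

theorem shadow_subset {𝒜 Bad : Finset (Finset (Fin n))}
    (h : ∀ A ∈ 𝒜, ∀ u ∈ A, ∀ m < u, fm A m → sw A u m ∈ 𝒜 ∨ A.erase u ∈ Bad) :
    ∂ 𝒜 ⊆ can 𝒜 ∪ Bad := by
  intro L hL
  obtain ⟨A, hA, u, hu, rfl⟩ := mem_shadow_iff.1 hL
  obtain ⟨m, hm, hm'⟩ := exists_fm (notMem_erase u A)
  rcases hm.eq_or_lt with rfl | hlt
  · exact mem_union_left _ (mem_can.2 ⟨m, hm', by rwa [insert_erase hu]⟩)
  · rcases h A hA u hu m hlt ⟨fun e => hm'.1 (mem_erase.2 ⟨hlt.ne, e⟩),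
      fun y hy => mem_of_mem_erase (hm'.2 y hy)⟩ with h1 | h1
    · exact mem_union_left _ (mem_can.2 ⟨m, hm', h1⟩)
    · exact mem_union_right _ h1

/-- the quantity that is maximised -/
def W (c : ℚ) (𝒜 : Finset (Finset (Fin n))) : ℚ := c * 𝒜.card - (∂ 𝒜).card

/-- its additive form -/
def wt (c : ℚ) (𝒜 : Finset (Finset (Fin n))) : ℚ := ∑ A ∈ 𝒜, (c - iota A)

theorem wt_eq (c : ℚ) (𝒜 : Finset (Finset (Fin n))) : wt c 𝒜 = c * 𝒜.card - (can 𝒜).card := by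
  unfold wt
  rw [sum_sub_distrib, sum_iota, sum_const, nsmul_eq_mul, mul_comm]

theorem W_le_wt (c : ℚ) (𝒜 : Finset (Finset (Fin n))) : W c 𝒜 ≤ wt c 𝒜 := by
  rw [wt_eq, W]
  have : ((can 𝒜).card : ℚ) ≤ (∂ 𝒜).card := by exact_mod_cast card_le_card (can_subset 𝒜)
  linarith

theorem wt_le_W (c : ℚ) {𝒜 Bad : Finset (Finset (Fin n))}
    (h : ∀ A ∈ 𝒜, ∀ u ∈ A, ∀ m < u, fm A m → sw A u m ∈ 𝒜 ∨ A.erase u ∈ Bad) :
    wt c 𝒜 - Bad.card ≤ W c 𝒜 := by
  rw [wt_eq, W]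
  have : ((∂ 𝒜).card : ℚ) ≤ (can 𝒜).card + Bad.card := by
    exact_mod_cast (card_le_card (shadow_subset h)).trans (card_union_le _ _)
  linarith

/-- closed under left shifts -/
def Shifted (𝒜 : Finset (Finset (Fin n))) : Prop :=
  ∀ A ∈ 𝒜, ∀ u v, v < u → u ∈ A → v ∉ A → sw A u v ∈ 𝒜

theorem Shifted.W_eq (c : ℚ) {𝒜 : Finset (Finset (Fin n))} (h : Shifted 𝒜) :
    W c 𝒜 = wt c 𝒜 := by
  refine le_antisymm (W_le_wt c 𝒜) ?_
  simpa using wt_le_W c (𝒜 := 𝒜) (Bad := ∅)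
    fun A hA u hu m hm hf => Or.inl (h A hA u m hm hu hf.1)

/-- the mean initial run of a set with `i` of the first `l` points -/
def rr (l i : ℕ) : ℚ := (i : ℚ) / ((l : ℚ) - i + 1)

theorem av {l : ℕ} (hl : l ≤ n) {𝒳 : Finset (Finset (Fin n))}
    (hs : ∀ A ∈ 𝒳, ∀ u v : Fin n, u.val < l → v.val < l → u ∈ A → v ∉ A → sw A u v ∈ 𝒳)
    (hm : ∀ A ∈ 𝒳, ∃ m : Fin n, m.val ≤ l ∧ m ∉ A) :
    ∑ A ∈ 𝒳, (iota A : ℚ) = ∑ A ∈ 𝒳, rr l (ci l A) := by
  classical
  rw [sum_iota]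
  have key : ∀ L ∈ can 𝒳, (∀ x : Fin n, x.val < l → x ∉ L → insert x L ∈ 𝒳) ∧
      ∃ m : Fin n, m.val < l ∧ m ∉ L := by
    intro L hL
    obtain ⟨m, h1, h2⟩ := mem_can.1 hL
    have hml : m.val < l := by
      obtain ⟨m', a1, a2⟩ := hm _ h2
      have : m < m' := by
        by_contra hc
        rcases (not_lt.1 hc).eq_or_lt with e | e
        · exact a2 (e ▸ mem_insert_self _ _)
        · exact a2 (mem_insert_of_mem (h1.2 m' e))
      exact lt_of_lt_of_le this a1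
    refine ⟨fun x hx hxL => ?_, m, hml, h1.1⟩
    by_cases e : x = m
    · rwa [e]
    · have := hs _ h2 m x hml hx (mem_insert_self _ _) (by simp [e, hxL])
      rwa [sw, erase_insert h1.1] at this
  have := dc 𝒳 (can 𝒳) (lo l) (fun L => lo l Lᶜ) (fun A x => A.erase x) (fun L x => insert x L)
    (fun A => 1 / ((l : ℚ) - ci l A + 1)) (fun L => 1 / ((l : ℚ) - ci l L))
    (fun A hA x hx => ?_) (fun L hL x hx => ?_)
  · symm
    calc ∑ A ∈ 𝒳, rr l (ci l A)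
        = ∑ A ∈ 𝒳, ((lo l A).card : ℚ) * (1 / ((l : ℚ) - ci l A + 1)) :=
          sum_congr rfl fun A _ => by rw [rr, mul_one_div]; rfl
      _ = ∑ L ∈ can 𝒳, (1 : ℚ) := by
          rw [this]
          refine sum_congr rfl fun L hL => ?_
          obtain ⟨m, a1, a2⟩ := (key L hL).2
          have h1 : ((ci l Lᶜ : ℕ) : ℚ) + ci l L = l := by exact_mod_cast ci_compl hl L
          have h2 : 0 < ci l Lᶜ := card_pos.2 ⟨m, by simp [a1, a2]⟩
          have h3 : (0 : ℚ) < ci l Lᶜ := by exact_mod_cast h2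
          rw [← h1, add_sub_cancel_right]
          exact mul_one_div_cancel h3.ne'
      _ = _ := by simp
  · rw [mem_lo] at hx
    refine ⟨?_, by simp [hx.2], insert_erase hx.1, ?_⟩
    · obtain ⟨m, h1, h2⟩ := exists_fm (notMem_erase x A)
      refine mem_can.2 ⟨m, h2, ?_⟩
      by_cases e : m = x
      · rwa [e, insert_erase hx.1]
      · exact hs A hA x m hx.2 (lt_of_le_of_lt h1 hx.2) hx.1 fun h => h2.1 (mem_erase.2 ⟨e, h⟩)
    · have : ((ci l (A.erase x) : ℕ) : ℚ) + 1 = ci l A := by exact_mod_cast ci_erase hx.1 hx.2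
      simp only [← this]
      congr 1
      ring
  · simp only [mem_lo, mem_compl] at hx
    exact ⟨(key L hL).1 x hx.2 hx.1, by simp [hx.2], erase_insert hx.1⟩

theorem wt_av (c : ℚ) {l : ℕ} (hl : l ≤ n) {𝒳 : Finset (Finset (Fin n))}
    (hs : ∀ A ∈ 𝒳, ∀ u v : Fin n, u.val < l → v.val < l → u ∈ A → v ∉ A → sw A u v ∈ 𝒳)
    (hm : ∀ A ∈ 𝒳, ∃ m : Fin n, m.val ≤ l ∧ m ∉ A) :
    wt c 𝒳 = ∑ A ∈ 𝒳, (c - rr l (ci l A)) := by
  rw [wt, sum_sub_distrib, sum_sub_distrib, av hl hs hm]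

theorem iota_congr {l : ℕ} {A B : Finset (Fin n)} {m : Fin n} (hm : m.val < l) (hA : m ∉ A)
    (h : ∀ x : Fin n, x.val < l → (x ∈ A ↔ x ∈ B)) : iota A = iota B := by
  unfold iota
  congr 1
  ext x
  simp only [mem_filter]
  have hB : m ∉ B := fun e => hA ((h m hm).2 e)
  constructor
  · rintro ⟨h1, h2⟩
    have : x < m := by
      rcases lt_trichotomy x m with e | e | e
      · exact e
      · exact (hA (e ▸ h1)).elim
      · exact (hA (h2 m e)).elim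
    exact ⟨(h x (lt_trans this hm)).1 h1,
      fun y hy => (h y (lt_trans (lt_trans hy this) hm)).1 (h2 y hy)⟩
  · rintro ⟨h1, h2⟩
    have : x < m := by
      rcases lt_trichotomy x m with e | e | e
      · exact e
      · exact (hB (e ▸ h1)).elim
      · exact (hB (h2 m e)).elim
    exact ⟨(h x (lt_trans this hm)).2 h1,
      fun y hy => (h y (lt_trans (lt_trans hy this) hm)).2 (h2 y hy)⟩

theorem le_iota {l : ℕ} (hl : l ≤ n) {A : Finset (Fin n)} (h : ∀ x : Fin n, x.val < l → x ∈ A) :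
    l ≤ iota A := by
  refine (ci_univ hl).symm.le.trans ?_
  refine card_le_card fun x hx => ?_
  rw [mem_lo] at hx
  exact mem_filter.2 ⟨h x hx.2, fun y hy => h y (lt_trans hy hx.2)⟩

end Pool.Agent.MP_d50107_co.H92
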