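import Pool.Agent.MP_d50107_co.H92.Basic

namespace Pool.Agent.MP_d50107_co.H92

open Finset
open scoped FinsetFamily

variable {n : ℕ} {f R : Finset (Fin n) → Prop}

/-- a shifted, monotone and self-dual Boolean function -/
structure Good (f : Finset (Fin n) → Prop) : Prop where
  ins : ∀ A z, f A → f (insert z A)
  shf : ∀ A u v, v < u → u ∈ A → v ∉ A → f A → f (sw A u v)
  dual : ∀ A, f Aᶜ ↔ ¬ f A

theorem mono_of_ins (h : ∀ A z, f A → f (insert z A)) {A B : Finset (Fin n)} (hAB : A ⊆ B)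
    (hA : f A) : f B := by
  have : ∀ T : Finset (Fin n), f (T ∪ A) := by
    intro T
    induction T using Finset.induction_on with
    | empty => simpa using hA
    | insert z T _ ih => rw [insert_union]; exact h _ _ ih
  have := this B
  rwa [union_eq_left.2 hAB] at this

theorem Good.mono (h : Good f) {A B : Finset (Fin n)} (hAB : A ⊆ B) (hA : f A) : f B :=
  mono_of_ins h.ins hAB hA

open Classical in
/-- the `k`-sets with the property `f` -/
noncomputable def lev (k : ℕ) (f : Finset (Fin n) → Prop) : Finset (Finset (Fin n)) :=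
  (powersetCard k univ).filter f

theorem mem_lev {k : ℕ} {A : Finset (Fin n)} : A ∈ lev k f ↔ A.card = k ∧ f A := by
  simp [lev, mem_powersetCard]

theorem lev_subset (k : ℕ) (f : Finset (Fin n) → Prop) : lev k f ⊆ powersetCard k univ :=
  fun _ hA => mem_powersetCard.2 ⟨subset_univ _, (mem_lev.1 hA).1⟩

theorem lev_congr {k : ℕ} {g : Finset (Fin n) → Prop} (h : ∀ A, A.card = k → (f A ↔ g A)) :
    lev k f = lev k g := by
  ext A
  rw [mem_lev, mem_lev]
  exact and_congr_right (h A)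

theorem inter_lev (k : ℕ) (h : ∀ A z, f A → f (insert z A)) (hd : ∀ A, f Aᶜ ↔ ¬ f A) :
    H54.Inter (lev k f) := by
  intro A hA B hB
  by_contra hc
  push Not at hc
  exact (hd B).1 (mono_of_ins h (fun x hx => mem_compl.2 (hc x hx)) (mem_lev.1 hA).2)
    (mem_lev.1 hB).2

theorem Good.shifted (h : Good f) (k : ℕ) : Shifted (lev k f) := fun A hA u v h1 h2 h3 => by
  rw [mem_lev] at hA ⊢
  exact ⟨(card_sw h2 h3).trans hA.1, h.shf A u v h1 h2 h3 hA.2⟩

/-- exchange the sets in `R` for their complements -/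
def flip (f R : Finset (Fin n) → Prop) (A : Finset (Fin n)) : Prop := (f A ∧ ¬ R A) ∨ R Aᶜ

theorem flip_dual (hd : ∀ A, f Aᶜ ↔ ¬ f A) (hR : ∀ A, R A → f A) (A : Finset (Fin n)) :
    flip f R Aᶜ ↔ ¬ flip f R A := by
  unfold flip
  rw [compl_compl]
  have := hd A
  have := hR A
  have := hR Aᶜ
  tauto

theorem flip_step (hd : ∀ A, f Aᶜ ↔ ¬ f A) {A B : Finset (Fin n)} (hf : f A → f B)
    (h1 : f A → R B → R A) (h2 : f Bᶜ → R Aᶜ → R Bᶜ) (h3 : R Aᶜ → ¬ R B) :
    flip f R A → flip f R B := by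
  unfold flip
  have := hd B
  tauto

theorem flip_ins (hg : Good f) (h1 : ∀ A z, z ∉ A → f A → R (insert z A) → R A)
    (h3 : ∀ A z, z ∉ A → R Aᶜ → ¬ R (insert z A)) (A : Finset (Fin n)) (z : Fin n) :
    flip f R A → flip f R (insert z A) := by
  by_cases hz : z ∈ A
  · rw [insert_eq_of_mem hz]
    exact id
  refine flip_step hg.dual (hg.ins A z) (h1 A z hz) (fun a b => h1 _ z (by simp) a ?_) (h3 A z hz)
  rwa [compl_insert, insert_erase (mem_compl.2 hz)]

theorem sw_compl_sw {A : Finset (Fin n)} {u v : Fin n} (hu : u ∈ A) (hv : v ∉ A) :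
    sw (sw A u v)ᶜ u v = Aᶜ := by
  rw [compl_sw hu hv, sw_sw (mem_compl.2 hv) (by simpa using hu)]

theorem flip_good (hg : Good f) (hR : ∀ A, R A → f A)
    (h1 : ∀ A z, z ∉ A → f A → R (insert z A) → R A)
    (h2 : ∀ A u v, v < u → u ∈ A → v ∉ A → f A → R (sw A u v) → R A)
    (h3 : ∀ A z, z ∉ A → R Aᶜ → ¬ R (insert z A))
    (h4 : ∀ A u v, v < u → u ∈ A → v ∉ A → R Aᶜ → ¬ R (sw A u v)) : Good (flip f R) := by
  refine ⟨flip_ins hg h1 h3, fun A u v a b c => ?_, flip_dual hg.dual hR⟩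
  refine flip_step hg.dual (hg.shf A u v a b c) (h2 A u v a b c) (fun d e => ?_) (h4 A u v a b c)
  refine h2 _ u v a (by simp [a.ne']) (by simp) d ?_
  rwa [sw_compl_sw b c]

theorem wt_sub (c : ℚ) (k : ℕ) (hR : ∀ A, R A → f A) :
    wt c (lev k fun A => f A ∧ ¬ R A) = wt c (lev k f) - wt c (lev k R) := by
  rw [eq_sub_iff_add_eq, wt, wt, wt, ← sum_union]
  · congr 1
    ext A
    simp only [mem_union, mem_lev]
    have := hR A
    tauto
  · rw [disjoint_left]
    intro A h1 h2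
    rw [mem_lev] at h1 h2
    exact h1.2.2 h2.2

theorem wt_flip (c : ℚ) (k : ℕ) (hd : ∀ A, f Aᶜ ↔ ¬ f A) (hR : ∀ A, R A → f A) :
    wt c (lev k (flip f R)) = wt c (lev k f) - wt c (lev k R) + wt c (lev k fun A => R Aᶜ) := by
  rw [← wt_sub c k hR, wt, wt, wt, ← sum_union]
  · congr 1
    ext A
    simp only [mem_union, mem_lev, flip]
    tauto
  · rw [disjoint_left]
    intro A h1 h2
    rw [mem_lev] at h1 h2
    exact (hd A).1 (hR _ h2.2) h1.2.1

/-- optimal, and no shifted proper subfamily is -/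
structure Opt (c : ℚ) (k : ℕ) (𝒜 : Finset (Finset (Fin n))) : Prop where
  mx : ∀ ℬ : Finset (Finset (Fin n)), ℬ ⊆ powersetCard k univ → H54.Inter ℬ → W c ℬ ≤ W c 𝒜
  st : ∀ ℬ ⊂ 𝒜, Shifted ℬ → W c ℬ < W c 𝒜

variable {c : ℚ} {k : ℕ}

theorem K1 (hg : Good f) (ho : Opt c k (lev k f)) (hR : ∀ A, R A → f A)
    (hi : ∀ A z, flip f R A → flip f R (insert z A)) (Bad : Finset (Finset (Fin n)))
    (hb : ∀ A, A.card = k → ∀ u ∈ A, ∀ m < u, fm A m → flip f R A →
      flip f R (sw A u m) ∨ A.erase u ∈ Bad) :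
    wt c (lev k fun A => R Aᶜ) - Bad.card ≤ wt c (lev k R) := by
  have h1 := ho.mx _ (lev_subset k (flip f R)) (inter_lev k hi (flip_dual hg.dual hR))
  have h2 := wt_le_W c (𝒜 := lev k (flip f R)) (Bad := Bad) fun A hA u hu m hm hf => by
    rw [mem_lev] at hA
    exact (hb A hA.1 u hu m hm hf hA.2).imp_left fun h =>
      mem_lev.2 ⟨(card_sw hu hf.1).trans hA.1, h⟩
  have h3 := wt_flip c k hg.dual hR
  have h4 := W_le_wt c (lev k f)
  linarith

theorem K1' (hg : Good f) (ho : Opt c k (lev k f)) (hR : ∀ A, R A → f A)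
    (h : Good (flip f R)) : wt c (lev k fun A => R Aᶜ) ≤ wt c (lev k R) := by
  simpa using K1 hg ho hR h.ins ∅ fun A _ u hu m hm hf hA => Or.inl (h.shf A u m hm hu hf.1 hA)

theorem K2 (hg : Good f) (ho : Opt c k (lev k f)) (hR : ∀ A, R A → f A)
    (h2 : ∀ A u v, v < u → u ∈ A → v ∉ A → f A → R (sw A u v) → R A)
    (hne : (lev k R).Nonempty) : 0 < wt c (lev k R) := by
  have hs : Shifted (lev k fun A => f A ∧ ¬ R A) := fun A hA u v a b d => by
    rw [mem_lev] at hA ⊢
    exact ⟨(card_sw b d).trans hA.1, hg.shf A u v a b d hA.2.1,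
      fun e => hA.2.2 (h2 A u v a b d hA.2.1 e)⟩
  have h1 := ho.st _ ⟨fun A hA => mem_lev.2 ⟨(mem_lev.1 hA).1, (mem_lev.1 hA).2.1⟩, fun h => by
    obtain ⟨A, hA⟩ := hne
    rw [mem_lev] at hA
    exact (mem_lev.1 (h (mem_lev.2 ⟨hA.1, hR A hA.2⟩))).2.2 hA.2⟩ hs
  rw [hs.W_eq, (hg.shifted k).W_eq, wt_sub c k hR] at h1
  linarith

theorem lev_flip (h1 : ∀ A, A.card = k → ¬ R A) (h2 : ∀ A, A.card = k → ¬ R Aᶜ) :
    lev k (flip f R) = lev k f :=
  lev_congr fun A hA => by
    unfold flip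
    have := h1 A hA
    have := h2 A hA
    tauto

/-- `f` ignores the points from `s` on -/
def Ext (f : Finset (Fin n) → Prop) (s : ℕ) : Prop := ∀ A z, s ≤ z.val → f A → f (A.erase z)

/-- `f` is symmetric in the points below `l` -/
def Sym (f : Finset (Fin n) → Prop) (l : ℕ) : Prop :=
  ∀ A u v, u.val < l → v.val < l → u ∈ A → v ∉ A → f A → f (sw A u v)

/-- `R` depends on the points below `s` only -/
def Dep (R : Finset (Fin n) → Prop) (s : ℕ) : Prop :=
  ∀ A B, (∀ x : Fin n, x.val < s → (x ∈ A ↔ x ∈ B)) → R A → R B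

variable {s l : ℕ}

theorem ext_mono (hg : Good f) (he : Ext f s) {A B : Finset (Fin n)}
    (h : ∀ x : Fin n, x.val < s → x ∈ A → x ∈ B) (hA : f A) : f B := by
  have : ∀ T : Finset (Fin n), (∀ x ∈ T, s ≤ x.val) → f (A \ T) := by
    intro T
    induction T using Finset.induction_on with
    | empty => simpa using hA
    | insert z T _ ih =>
      intro hT
      rw [sdiff_insert]
      exact he _ _ (hT z (mem_insert_self _ _)) (ih fun x hx => hT x (mem_insert_of_mem hx))
  refine hg.mono (fun x hx => ?_) (this (A \ B) fun x hx => ?_)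
  · simp only [mem_sdiff] at hx
    tauto
  · rw [mem_sdiff] at hx
    by_contra hc
    exact hx.2 (h x (not_le.1 hc) hx.1)

theorem sym_mono (hg : Good f) (he : Ext f s) (hs : Sym f l) {A B : Finset (Fin n)}
    (h1 : ci l A ≤ ci l B) (h2 : ∀ x : Fin n, l ≤ x.val → x.val < s → x ∈ A → x ∈ B)
    (hA : f A) : f B := by
  induction hn : (lo l A \ B).card generalizing A with
  | zero =>
    refine ext_mono hg he (fun x hx hxA => ?_) hA
    by_cases e : x.val < l
    · exact sdiff_eq_empty_iff_subset.1 (card_eq_zero.1 hn) (mem_lo.2 ⟨hxA, e⟩)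
    · exact h2 x (not_lt.1 e) hx hxA
  | succ m ih =>
    obtain ⟨x, hx⟩ : (lo l A \ B).Nonempty := card_pos.1 (by omega)
    have hx' := hx
    simp only [mem_sdiff, mem_lo] at hx'
    obtain ⟨v, hv, hvA⟩ : ∃ v ∈ lo l B, v ∉ A := by
      by_contra hc
      push Not at hc
      have h3 : ci l B ≤ ci l (A.erase x) := ci_mono fun z a b =>
        mem_erase.2 ⟨fun e => hx'.2 (e ▸ b), hc z (mem_lo.2 ⟨b, a⟩)⟩
      have := ci_erase hx'.1.1 hx'.1.2
      omega
    rw [mem_lo] at hv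
    refine ih (A := sw A x v) (by rwa [ci_sw_in hx'.1.1 hvA hx'.1.2 hv.2]) (fun z a b d => ?_)
      (hs A x v hx'.1.2 hv.2 hx'.1.1 hvA hA) ?_
    · rw [mem_sw] at d
      rcases d with rfl | d
      · exact hv.1
      · exact h2 z a b d.2
    · have : lo l (sw A x v) \ B = (lo l A \ B).erase x := by
        ext z
        simp only [mem_sdiff, mem_lo, mem_sw, mem_erase]
        grind
      rw [this, card_erase_of_mem hx, hn]
      rfl

theorem Ext.flip (he : Ext f s) (hR : Dep R s) : Ext (flip f R) s := by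
  intro A z hz hA
  have e : ∀ x : Fin n, x.val < s → (x ∈ A.erase z ↔ x ∈ A) := fun x hx => by
    simp only [mem_erase]
    grind
  rcases hA with hA | hA
  · exact Or.inl ⟨he A z hz hA.1, fun h => hA.2 (hR _ _ e h)⟩
  · exact Or.inr (hR _ _ (fun x hx => by simp only [mem_compl, e x hx]) hA)

theorem Sym.flip (hs : Sym f l) (hR : Sym R l) : Sym (flip f R) l := by
  intro A u v a b d e hA
  rcases hA with hA | hA
  · refine Or.inl ⟨hs A u v a b d e hA.1, fun h => hA.2 ?_⟩
    have := hR _ v u b a (by simp) (by simp only [mem_sw]; grind) h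
    rwa [sw_sw d e] at this
  · right
    rw [compl_sw d e]
    exact hR _ v u b a (mem_compl.2 e) (by simpa using d) hA

end Pool.Agent.MP_d50107_co.H92
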