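import Pool.Agent.MP_d50107_co.H92.Piv

namespace Pool.Agent.MP_d50107_co.H92

open Finset
open scoped FinsetFamily

variable {n : ℕ} {f : Finset (Fin n) → Prop} {c : ℚ} {k h i l : ℕ} {σ y : Fin n}
  {A B : Finset (Fin n)}

/-- complement below `σ` -/
def kap (σ : Fin n) (A : Finset (Fin n)) : Finset (Fin n) :=
  univ.filter fun x => (x.val < σ.val ↔ x ∉ A)

theorem mem_kap {x : Fin n} : x ∈ kap σ A ↔ (x.val < σ.val ↔ x ∉ A) := by simp [kap]

theorem kap_kap (σ : Fin n) (A : Finset (Fin n)) : kap σ (kap σ A) = A := by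
  ext x
  simp only [mem_kap]
  tauto

theorem kap_low (x : Fin n) (hx : x.val < σ.val) : x ∈ Aᶜ ↔ x ∈ kap σ A := by
  simp [mem_kap, hx]

theorem ci_kap (hl : l ≤ σ.val) (A : Finset (Fin n)) : ci l (kap σ A) + ci l A = l := by
  rw [← ci_congr fun x hx => kap_low x (lt_of_lt_of_le hx hl)]
  exact ci_compl (hl.trans σ.isLt.le) A

theorem card_kap (hA : 2 * ci σ.val A = σ.val) : (kap σ A).card = A.card := by
  have h1 := ci_kap (le_refl σ.val) A
  have h2 : hi σ (kap σ A) = hi σ A := by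
    ext x
    simp only [mem_hi, mem_kap, Fin.lt_def]
    grind
  have h3 : σ ∈ kap σ A ↔ σ ∈ A := by simp [mem_kap]
  rw [← card_hi σ, ← card_hi σ A, h2]
  simp only [h3]
  omega

theorem pv_kap (hg : Good f) (he : Ext f (σ.val + 1)) (hA : pv f σ A) : pv f σ (kap σ A) :=
  pv_dep hg he _ _ kap_low (pv_compl hg hA)

theorem pv_sym (hs : Sym f l) (hl : l ≤ σ.val) : Sym (pv f σ) l := by
  intro A u v a b d e hA
  refine ⟨cast (congrArg f ?_) (hs _ u v a b (mem_insert_of_mem d)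
    (by simp only [mem_insert]; grind) hA.1), fun h1 => hA.2 (cast (congrArg f ?_)
      (hs _ v u b a (by simp only [mem_erase, mem_sw]; grind)
        (by simp only [mem_erase, mem_sw]; grind) h1))⟩
  · ext x
    simp only [mem_insert, mem_sw]
    grind
  · ext x
    simp only [mem_erase, mem_sw]
    grind

theorem kap_sum (hg : Good f) (he : Ext f (σ.val + 1)) (hy : y < σ) (hσ : σ.val = 2 * h)
    (φ : ℕ → ℚ) :
    ∑ C ∈ lev k fun C => σ ∉ C ∧ (pv f σ C ∧ y ∈ C) ∧ ci σ.val C = h, φ (ci y.val C) =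
      ∑ C ∈ lev k fun C => σ ∉ C ∧ (pv f σ C ∧ y ∉ C) ∧ ci σ.val C = h,
        φ (y.val - ci y.val C) := by
  have hy' : y.val < σ.val := hy
  refine sum_nbij' (kap σ) (kap σ) (fun C hC => ?_) (fun C hC => ?_) (fun C _ => kap_kap σ C)
    (fun C _ => kap_kap σ C) fun C _ => ?_
  · rw [mem_lev] at hC ⊢
    have := ci_kap (le_refl σ.val) C
    exact ⟨(card_kap (by omega)).trans hC.1, by simp [mem_kap, hC.2.1],
      ⟨pv_kap hg he hC.2.2.1.1, by simp [mem_kap, hy', hC.2.2.1.2]⟩, by omega⟩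
  · rw [mem_lev] at hC ⊢
    have := ci_kap (le_refl σ.val) C
    exact ⟨(card_kap (by omega)).trans hC.1, by simp [mem_kap, hC.2.1],
      ⟨pv_kap hg he hC.2.2.1.1, by simp [mem_kap, hy', hC.2.2.1.2]⟩, by omega⟩
  · have := ci_kap hy'.le C
    congr 1
    omega

theorem ci_eq_of_all (hl : l ≤ n) (hA : ∀ x : Fin n, x.val < l → x ∈ A) : ci l A = l :=
  (ci_congr fun x hx => by simp [hA x hx]).trans (ci_univ hl)

theorem all_of_ci_eq (hl : l ≤ n) (hA : ci l A = l) (x : Fin n) (hx : x.val < l) : x ∈ A := by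
  by_contra hc
  have h1 := ci_compl hl A
  have h2 : 0 < ci l Aᶜ := card_pos.2 ⟨x, by simp [hc, hx]⟩
  omega

theorem last_K1 (hg : Good f) (ho : Opt c k (lev k f)) (he : Ext f (σ.val + 1)) (hy : y < σ)
    (hσ : σ.val = 2 * h) :
    wt c (lev k fun C => σ ∉ C ∧ (pv f σ C ∧ y ∉ C) ∧ ci σ.val C = h) -
      (lev k fun B => pv f σ B ∧ ci σ.val B = h ∧ y ∈ B ∧ ci y.val B = y.val).card ≤
      wt c (lev k fun C => σ ∈ C ∧ (pv f σ C ∧ y ∈ C) ∧ ci σ.val C = h) := by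
  have h1 : Dep (fun A => ci σ.val A = h ∧ y ∈ A) σ.val := fun A B a b =>
    ⟨(ci_congr a).symm.trans b.1, (a y hy).1 b.2⟩
  have h3 : ∀ A, (ci σ.val Aᶜ = h ∧ y ∈ Aᶜ) → ¬ (ci σ.val A = h ∧ y ∈ A) :=
    fun A a b => mem_compl.1 a.2 b.2
  have hc : ∀ A (u v : Fin n), v < u → u ∈ A → v ∉ A → (u < σ ∨ σ < v) →
      ci σ.val (sw A u v) = ci σ.val A := fun A u v a b d e => ci_of_asym_shf a b d e
  have := K1 (R := fun A => σ ∈ A ∧ pv f σ A ∧ ci σ.val A = h ∧ y ∈ A) hg ho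
    (fun _ h => h.2.1.mem h.1)
    (flip_ins hg (pv_R_ins hg he h1) fun A z _ b => pv_R_ins' h1 h3 A z b)
    ((lev k fun B => pv f σ B ∧ ci σ.val B = h ∧ y ∈ B ∧ ci y.val B = y.val).image
      fun B => B.erase y) fun A hA u hu m hm hf hfl => ?_
  · have e1 : (lev k fun A => σ ∈ Aᶜ ∧ pv f σ Aᶜ ∧ ci σ.val Aᶜ = h ∧ y ∈ Aᶜ) =
        lev k fun C => σ ∉ C ∧ (pv f σ C ∧ y ∉ C) ∧ ci σ.val C = h := lev_congr fun A _ => by
      have := ci_compl σ.isLt.le A
      have : pv f σ Aᶜ ↔ pv f σ A := ⟨pv_of_compl hg, pv_compl hg⟩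
      simp only [mem_compl]
      grind
    have e2 : (lev k fun A => σ ∈ A ∧ pv f σ A ∧ ci σ.val A = h ∧ y ∈ A) =
        lev k fun C => σ ∈ C ∧ (pv f σ C ∧ y ∈ C) ∧ ci σ.val C = h := lev_congr fun A _ => by
      tauto
    rw [e1, e2] at this
    refine le_trans (sub_le_sub_left (Nat.cast_le.2 card_image_le) _) this
  have b1 : u ∈ (sw A u m)ᶜ := by simp [hm.ne']
  have b2 : m ∉ (sw A u m)ᶜ := by simp
  by_cases e : m = y ∧ pv f σ (sw A u m) ∧ ci σ.val (sw A u m) = h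
  · obtain ⟨rfl, e1, e2⟩ := e
    refine Or.inr (mem_image.2 ⟨sw A u m, mem_lev.2 ⟨(card_sw hu hf.1).trans hA, e1, e2, by simp,
      ci_eq_of_all m.isLt.le fun x hx => ?_⟩, erase_insert (by simp [hf.1])⟩)
    have := hf.2 x hx
    simp only [mem_sw]
    grind
  refine Or.inl (flip_step hg.dual (hg.shf A u m hm hu hf.1) (fun a b => ?_) (fun a b => ?_)
    (pv_R_shf' h1 h3 A hm) hfl)
  · obtain ⟨h4, h5, h6⟩ := pv_shf hg he hm hu hf.1 a b.1 b.2.1
    refine ⟨h4, h5, (hc A u m hm hu hf.1 h6).symm.trans b.2.2.1, ?_⟩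
    exact ((mem_sw.1 b.2.2.2).resolve_left fun e' => e ⟨e'.symm, b.2.1, b.2.2.1⟩).2
  · rw [← sw_compl_sw hu hf.1] at b
    obtain ⟨h4, h5, h6⟩ := pv_shf hg he hm b1 b2 a b.1 b.2.1
    have h7 := (hc _ u m hm b1 b2 h6).symm.trans b.2.2.1
    refine ⟨h4, h5, h7, ?_⟩
    refine ((mem_sw.1 b.2.2.2).resolve_left fun e' => e ⟨e'.symm, pv_of_compl hg h5, ?_⟩).2
    have := ci_compl σ.isLt.le (sw A u m)
    omega

theorem last_closed (hs : Sym f y.val) (hy : y < σ) {p q : Prop} (A : Finset (Fin n))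
    (u v : Fin n) (a : u.val < y.val) (b : v.val < y.val) (d : u ∈ A) (e : v ∉ A)
    (hA : A.card = k ∧ (σ ∈ A ↔ p) ∧ (pv f σ A ∧ (y ∈ A ↔ q)) ∧ ci σ.val A = h) :
    (sw A u v).card = k ∧ (σ ∈ sw A u v ↔ p) ∧ (pv f σ (sw A u v) ∧ (y ∈ sw A u v ↔ q)) ∧
      ci σ.val (sw A u v) = h := by
  refine ⟨(card_sw d e).trans hA.1, ?_, ⟨pv_sym hs (le_of_lt hy) A u v a b d e hA.2.2.1.1, ?_⟩,
    (ci_sw_in d e (lt_trans a hy) (lt_trans b hy)).trans hA.2.2.2⟩
  · rw [← hA.2.1, mem_sw]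
    grind
  · rw [← hA.2.2.1.2, mem_sw]
    grind

theorem last_P (hs : Sym f y.val) (hy : y < σ) :
    wt c (lev k fun C => σ ∈ C ∧ (pv f σ C ∧ y ∈ C) ∧ ci σ.val C = h) ≤
      ∑ C ∈ lev k fun C => σ ∈ C ∧ (pv f σ C ∧ y ∈ C) ∧ ci σ.val C = h,
        (c - rr y.val (ci y.val C) - if ci y.val C = y.val then 1 else 0) := by
  rw [wt, ← sum_filter_add_sum_filter_not _ fun C => ci y.val C = y.val,
    ← sum_filter_add_sum_filter_not _ (fun C => ci y.val C = y.val)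
      fun C => (c - rr y.val (ci y.val C) - if ci y.val C = y.val then 1 else 0)]
  refine add_le_add (sum_le_sum fun C hC => ?_) (le_of_eq ?_)
  · rw [mem_filter, mem_lev] at hC
    have : y.val + 1 ≤ iota C := le_iota y.isLt fun x hx => by
      rcases (Nat.lt_succ_iff.1 hx).eq_or_lt with e | e
      · rw [Fin.ext e]
        exact hC.1.2.2.1.2
      · exact all_of_ci_eq y.isLt.le hC.2 x e
    have : (y.val : ℚ) + 1 ≤ iota C := by exact_mod_cast this
    rw [if_pos hC.2, hC.2, rr]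
    simp only [sub_self, zero_add, div_one]
    linarith
  · refine (wt_av c y.isLt.le (fun A hA u v a b d e => ?_) fun A hA => ?_).trans
      (sum_congr rfl fun C hC => by rw [if_neg (mem_filter.1 hC).2, sub_zero])
    · rw [mem_filter, mem_lev] at hA ⊢
      rw [ci_sw_in d e a b]
      have := last_closed (p := True) (q := True) hs hy A u v a b d e (by simpa using hA.1)
      exact ⟨by simpa only [iff_true] using this, hA.2⟩
    · by_contra hc
      push Not at hc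
      exact (mem_filter.1 hA).2 (ci_eq_of_all y.isLt.le fun x hx => hc x hx.le)

theorem last_Q (hs : Sym f y.val) (hy : y < σ) :
    wt c (lev k fun C => σ ∉ C ∧ (pv f σ C ∧ y ∉ C) ∧ ci σ.val C = h) =
      ∑ C ∈ lev k fun C => σ ∉ C ∧ (pv f σ C ∧ y ∉ C) ∧ ci σ.val C = h,
        (c - rr y.val (ci y.val C)) := by
  refine wt_av c y.isLt.le (fun A hA u v a b d e => ?_) fun A hA =>
    ⟨y, le_rfl, (mem_lev.1 hA).2.2.1.2⟩
  rw [mem_lev] at hA ⊢
  have := last_closed (p := False) (q := False) hs hy A u v a b d e (by simpa using hA)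
  simpa only [iff_false] using this

theorem last_T :
    ((lev k fun B => pv f σ B ∧ ci σ.val B = h ∧ y ∈ B ∧ ci y.val B = y.val).card : ℚ) ≤
      (∑ C ∈ lev k fun C => σ ∈ C ∧ (pv f σ C ∧ y ∈ C) ∧ ci σ.val C = h,
        if ci y.val C = y.val then 1 else 0) +
      ∑ C ∈ lev k fun C => σ ∉ C ∧ (pv f σ C ∧ y ∈ C) ∧ ci σ.val C = h,
        if ci y.val C = y.val then 1 else 0 := by
  rw [sum_boole, sum_boole, ← Nat.cast_add, Nat.cast_le]
  refine le_trans (card_le_card fun B hB => ?_) (card_union_le _ _)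
  simp only [mem_union, mem_filter, mem_lev] at hB ⊢
  tauto

theorem last_swap (hg : Good f) (ho : Opt c k (lev k f)) (he : Ext f (σ.val + 1))
    (hs : Sym f y.val) (hy : y < σ) (hσ : σ.val = 2 * h) (ψ : ℕ → ℚ) :
    ∑ C ∈ lev k fun C => σ ∉ C ∧ (pv f σ C ∧ y ∉ C) ∧ ci σ.val C = h,
        (ci y.val C : ℚ) * ψ (ci y.val C) =
      ∑ C ∈ lev k fun C => σ ∉ C ∧ (pv f σ C ∧ y ∉ C) ∧ ci σ.val C = h,
        (ci y.val C : ℚ) * ψ (y.val + 1 - ci y.val C) := by
  set 𝒳 := lev k fun C => σ ∉ C ∧ (pv f σ C ∧ y ∉ C) ∧ ci σ.val C = h with hX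
  have hy' : y.val < σ.val := hy
  have key : ∀ A ∈ 𝒳.filter fun C => ¬ 2 * ci y.val C = y.val + 1, ∀ x ∈ lo y.val A,
      kap σ (sw A x y) ∈ (𝒳.filter fun C => ¬ 2 * ci y.val C = y.val + 1) ∧
      x ∈ lo y.val (kap σ (sw A x y)) ∧ kap σ (sw (kap σ (sw A x y)) x y) = A ∧
      ci y.val A + ci y.val (kap σ (sw A x y)) = y.val + 1 := by
    intro A hA x hx
    rw [mem_filter, hX, mem_lev] at hA
    rw [mem_lo] at hx
    obtain ⟨⟨a1, a2, ⟨a3, a4⟩, a5⟩, a6⟩ := hA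
    have hxy : x < y := hx.2
    have b1 := ci_sw_up hx.1 hx.2 (le_refl y.val)
    have b2 := ci_kap hy'.le (sw A x y)
    have b3 := ci_sw_in hx.1 a4 (lt_trans hx.2 hy') hy'
    have b4 := ci_kap (le_refl σ.val) (sw A x y)
    have b5 : (kap σ (sw A x y)).card = k :=
      (card_kap (by omega)).trans ((card_sw hx.1 a4).trans a1)
    have b6 : y ∉ kap σ (sw A x y) := by simp [mem_kap, hy']
    have b7 : σ ∉ kap σ (sw A x y) := by simp [mem_kap, a2, hy.ne']
    have b8 : x ∈ kap σ (sw A x y) := by simp [mem_kap, lt_trans hx.2 hy', hxy.ne]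
    have b9 : sw (kap σ (sw A x y)) x y = kap σ A := by
      ext z
      simp only [mem_kap, mem_sw]
      grind
    refine ⟨mem_filter.2 ⟨mem_lev.2 ⟨b5, b7, ⟨⟨?_, ?_⟩, b6⟩, by omega⟩, by omega⟩,
      mem_lo.2 ⟨b8, hx.2⟩, by rw [b9, kap_kap], by omega⟩
    · have : ¬ f (sw A x y) := fun e => a3.notMem a2 (by
        have := hg.shf _ y x hxy (by simp) (by simp [hxy.ne]) e
        rwa [sw_sw hx.1 a4] at this)
      refine ext_mono hg he (fun z a => ?_) ((hg.dual _).2 this)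
      simp only [mem_compl, mem_insert, mem_kap]
      grind
    · rw [erase_eq_of_notMem b7]
      intro e
      have := asym_class hg hs ho b5 ⟨b6, e, x, hxy, b8, by
        rw [b9]
        exact (pv_kap hg he a3).notMem (by simp [mem_kap, a2])⟩
      omega
  have := dc _ _ (lo y.val) (lo y.val) (fun A x => kap σ (sw A x y)) (fun A x => kap σ (sw A x y))
    (fun A => ψ (ci y.val A)) (fun A => ψ (y.val + 1 - ci y.val A))
    (fun A hA x hx => by
      obtain ⟨a1, a2, a3, a4⟩ := key A hA x hx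
      exact ⟨a1, a2, a3, congrArg ψ (by omega)⟩)
    fun A hA x hx => by
      obtain ⟨a1, a2, a3, -⟩ := key A hA x hx
      exact ⟨a1, a2, a3⟩
  rw [← sum_filter_add_sum_filter_not 𝒳 fun C => 2 * ci y.val C = y.val + 1,
    ← sum_filter_add_sum_filter_not 𝒳 (fun C => 2 * ci y.val C = y.val + 1)
      fun C => (ci y.val C : ℚ) * ψ (y.val + 1 - ci y.val C)]
  refine congrArg₂ (· + ·) (sum_congr rfl fun C hC => ?_) this
  have := (mem_filter.1 hC).2
  congr 2
  omega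

theorem arith1 (p q i : ℚ) (hp : 0 ≤ p) (hq : 0 ≤ q) (h : p + q = 2 * i) :
    (2 * i + 2) * (i / (i + 2)) ≤ (q + 1) * (q / (p + 2)) + (p + 1) * (p / (q + 2)) := by
  obtain ⟨t, rfl, rfl⟩ : ∃ t, p = i + t ∧ q = i - t := ⟨p - i, by ring, by linarith⟩
  have h1 : 0 < i + 2 := by linarith
  have h2 : 0 < i + t + 2 := by linarith
  have h3 : 0 < i - t + 2 := by linarith
  have hi : 0 ≤ i := by linarith
  rw [← mul_div_assoc, ← mul_div_assoc, ← mul_div_assoc, div_add_div _ _ h2.ne' h3.ne',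
    div_le_div_iff₀ h1 (mul_pos h2 h3)]
  nlinarith [mul_nonneg hi (sq_nonneg t), mul_nonneg (mul_nonneg hi hi) (sq_nonneg t), sq_nonneg t]

/-- the gain of the last move on one class -/
def cc (c M t : ℚ) (l j : ℕ) : ℚ :=
  M * (c - rr l j - if l - j = l then 1 else 0) - t * (c - rr l (l - j))

theorem cc_pos {c t D : ℚ} {i j : ℕ} (ht : 0 ≤ t) (hD : 2 * t < (i + 2) * D * (c - 1))
    (hj : j ≤ 2 * i + 1) :
    0 < 2 * cc c (t + D) t (2 * i + 1) j - j * (cc c (t + D) t (2 * i + 1) j / j) +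
      j * (cc c (t + D) t (2 * i + 1) (2 * i + 1 + 1 - j) / (2 * i + 1 + 1 - j : ℕ)) := by
  have hi : (0 : ℚ) ≤ i := Nat.cast_nonneg i
  have h1 : (0 : ℚ) < i + 2 := by linarith
  have h2 : 0 < D * (c - 1) := (mul_pos_iff_of_pos_left h1).1 (by linarith)
  rcases j with _ | p
  · rw [cc, Nat.sub_zero, if_pos rfl, rr, rr]
    simp only [Nat.cast_zero, zero_mul, sub_zero, zero_div, add_zero, sub_self, zero_add, div_one]
    push_cast
    nlinarith [mul_nonneg ht hi]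
  obtain ⟨q, hq⟩ : ∃ q, p + q = 2 * i := ⟨2 * i - p, by omega⟩
  have e : (p : ℚ) + q = 2 * i := by exact_mod_cast hq
  have hp : (0 : ℚ) ≤ p := Nat.cast_nonneg p
  have hq' : (0 : ℚ) ≤ q := Nat.cast_nonneg q
  have e1 : 2 * i + 1 + 1 - (p + 1) = q + 1 := by omega
  have e2 : 2 * i + 1 - (p + 1) = q := by omega
  have e3 : 2 * i + 1 - (q + 1) = p := by omega
  have e4 : cc c (t + D) t (2 * i + 1) (p + 1) =
      (t + D) * (c - (p + 1) / (q + 1)) - t * (c - q / (p + 2)) := by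
    rw [cc, e2, if_neg (by omega), rr, rr, sub_zero]
    push_cast
    rw [← e]
    congr 4 <;> ring
  have e5 : cc c (t + D) t (2 * i + 1) (q + 1) =
      (t + D) * (c - (q + 1) / (p + 1)) - t * (c - p / (q + 2)) := by
    rw [cc, e3, if_neg (by omega), rr, rr, sub_zero]
    push_cast
    rw [← e]
    congr 4 <;> ring
  rw [e1, e4, e5]
  push_cast
  have p1 : (0 : ℚ) < p + 1 := by linarith
  have p2 : (0 : ℚ) < q + 1 := by linarith
  rw [mul_div_cancel₀ _ p1.ne']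
  refine (mul_pos_iff_of_pos_left p2).1 ?_
  have a1 := mul_le_mul_of_nonneg_left (arith1 p q i hp hq' e) ht
  have a2 : ((q : ℚ) + 1) * ((p + 1) / (q + 1)) = p + 1 := mul_div_cancel₀ _ p2.ne'
  have a3 : ((p : ℚ) + 1) * ((q + 1) / (p + 1)) = q + 1 := mul_div_cancel₀ _ p1.ne'
  have a4 : ((i : ℚ) + 2) * (i / (i + 2)) = i := mul_div_cancel₀ _ h1.ne'
  have a5 : 0 < D * (c - 1) - t + t * (i / (i + 2)) := by
    refine (mul_pos_iff_of_pos_left h1).1 ?_
    nlinarith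
  have a6 : ∀ X : ℚ, ((q : ℚ) + 1) * ((p + 1) * (X / (q + 1))) = (p + 1) * X := fun X => by
    field_simp
  have a7 := mul_pos (show (0 : ℚ) < 2 * i + 2 by linarith) a5
  rw [mul_add, a6]
  generalize ((p : ℚ) + 1) / (q + 1) = r1 at *
  generalize ((q : ℚ) + 1) / (p + 1) = r2 at *
  generalize (q : ℚ) / (p + 2) = r3 at *
  generalize (p : ℚ) / (q + 2) = r4 at *
  generalize (i : ℚ) / (i + 2) = r5 at *
  have a8 : (2 * (i : ℚ) + 2) = (p + 1) + (q + 1) := by linarith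
  rw [a8] at a1 a7
  linear_combination a1 + a7 + (t + D) * a2 + (t + D) * a3

theorem last_move (hn : 2 * k < n) (hg : Good f) (ho : Opt c k (lev k f))
    (he : Ext f (σ.val + 1)) (hs : Sym f y.val) (hyi : y.val = 2 * i + 1) (hσ : σ.val = 2 * h)
    (hh : i + 1 < h) (hz : 2 * ((k : ℚ) - (i + 1)) ≤ (i + 2) * (n - 2 * k) * (c - 1))
    (hA : A.card = k) (h1 : σ ∉ A) (h2 : pv f σ A) (h3 : ci σ.val A = h) : False := by
  have hy' : y.val < σ.val := by omega
  have hy : y < σ := hy'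
  have hk : (h : ℚ) ≤ k := by exact_mod_cast h3 ▸ hA ▸ ci_le_card σ.val A
  have hh' : (i : ℚ) + 1 < h := by exact_mod_cast hh
  have p3 : 2 * (k : ℚ) < n := by exact_mod_cast hn
  have a1 := last_K1 hg ho he hy hσ
  have a2 := last_P (c := c) (k := k) (h := h) hs hy
  have a3 := last_T (f := f) (k := k) (h := h) (σ := σ) (y := y)
  have a4 := tail_dc (k := k) (g := h) (σ := σ) (τ := fun C => pv f σ C ∧ y ∈ C)
    (fun A B a b => ⟨pv_dep hg he A B a b.1, (a y hy').1 b.2⟩)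
    (fun C => c - rr y.val (ci y.val C)) fun A B _ b => by
      rw [ci_congr fun x hx => b x (lt_trans hx hy')]
  rw [kap_sum hg he hy hσ fun j => c - rr y.val j] at a4
  rw [kap_sum hg he hy hσ fun j => if j = y.val then 1 else 0] at a3
  rw [last_Q hs hy] at a1
  rw [sum_sub_distrib] at a2
  have a5 := last_swap hg ho he hs hy hσ
    fun j => cc c (k - h + (n - 2 * k)) (k - h) y.val j / j
  set 𝒳 := lev k fun C => σ ∉ C ∧ (pv f σ C ∧ y ∉ C) ∧ ci σ.val C = h with hX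
  have a6 : ∑ C ∈ 𝒳, cc c (k - h + (n - 2 * k)) (k - h) y.val (ci y.val C) ≤ 0 := by
    have e : (σ.val : ℚ) = 2 * h := by exact_mod_cast hσ
    simp only [cc]
    rw [sum_sub_distrib, ← mul_sum, ← mul_sum, sum_sub_distrib, a4, e]
    have : (0 : ℚ) ≤ k - h + (n - 2 * k) := by linarith
    nlinarith
  have hne : 𝒳.Nonempty := by
    by_cases e : y ∈ A
    · have := ci_kap (le_refl σ.val) A
      exact ⟨kap σ A, mem_lev.2 ⟨(card_kap (by omega)).trans hA, by simp [mem_kap, h1],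
        ⟨pv_kap hg he h2, by simp [mem_kap, hy', e]⟩, by omega⟩⟩
    · exact ⟨A, mem_lev.2 ⟨hA, h1, ⟨h2, e⟩, h3⟩⟩
  have a7 := sum_pos (s := 𝒳) (fun C _ => cc_pos (c := c) (t := k - h) (D := n - 2 * k) (i := i)
    (j := ci y.val C) (by linarith) (by linarith)
    (by have := ci_compl y.isLt.le C; omega)) hne
  rw [← hyi, sum_add_distrib, sum_sub_distrib, ← mul_sum] at a7
  linarith

end Pool.Agent.MP_d50107_co.H92
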