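import Pool.Agent.MP_d50107_co.H92.Maj

namespace Pool.Agent.MP_d50107_co.H92

open Finset
open scoped FinsetFamily

variable {n : ℕ} {c : ℚ} {k j a : ℕ} {𝒜 : Finset (Finset (Fin n))}

/-- the majority family on the first `2 * j + 1` points -/
noncomputable def AA (n k j : ℕ) : Finset (Finset (Fin n)) :=
  lev k fun B => j + 1 ≤ ci (2 * j + 1) B

theorem AA_eq (n k j : ℕ) : AA n k j = mj k (j + 1) (lo (2 * j + 1) univ) := lev_eq_mj _ _ _

theorem AA_shifted (n k j : ℕ) : Shifted (AA n k j) := fun A hA u v a b d => by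
  rw [AA, mem_lev] at hA ⊢
  exact ⟨(card_sw b d).trans hA.1, hA.2.trans (ci_le_shf a b d)⟩

theorem W_step (hn : 2 * k < n) (hj : j + 1 < k) : ∃ X : ℚ, 0 < X ∧ ∀ c : ℚ,
    W c (AA n k (j + 1)) - W c (AA n k j) =
      X * (2 * ((k : ℚ) - (j + 1)) - (j + 2) * (n - 2 * k) * (c - 1)) := by
  obtain ⟨y, hy⟩ : ∃ y : Fin n, y.val = 2 * j + 1 := ⟨⟨2 * j + 1, by omega⟩, rfl⟩
  obtain ⟨σ, hσ⟩ : ∃ σ : Fin n, σ.val = 2 * j + 1 + 1 := ⟨⟨2 * j + 1 + 1, by omega⟩, rfl⟩
  have hyσ : y.val < σ.val := by omega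
  have e1 : ∀ A : Finset (Fin n), ci σ.val A = ci (2 * j + 1) A + if y ∈ A then 1 else 0 :=
    fun A => by rw [hσ, ci_succ A hy]
  have e2 : ∀ A : Finset (Fin n),
      ci (2 * (j + 1) + 1) A = ci σ.val A + if σ ∈ A then 1 else 0 :=
    fun A => by rw [← ci_succ A rfl, hσ]; rfl
  have e3 : ∀ A : Finset (Fin n), ci (2 * j + 1) Aᶜ + ci (2 * j + 1) A = 2 * j + 1 :=
    ci_compl (by omega)
  have e4 : ∀ A : Finset (Fin n), ci σ.val Aᶜ + ci σ.val A = σ.val := ci_compl σ.isLt.le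
  have h1 := tail_card (k := k) (g := j + 1) (σ := σ) (τ := fun C => y ∉ C)
    fun A B a b e => b ((a y hyσ).2 e)
  have h2 : (lev k fun C => σ ∈ C ∧ y ∉ C ∧ ci σ.val C = j + 1).card =
      (lev k fun C => σ ∈ C ∧ y ∈ C ∧ ci σ.val C = j + 1).card := by
    refine card_nbij' (kap σ) (kap σ) (fun C hC => ?_) (fun C hC => ?_) (fun C _ => kap_kap σ C)
      fun C _ => kap_kap σ C
    · rw [mem_coe, mem_lev] at hC ⊢
      have := ci_kap (le_refl σ.val) C
      exact ⟨(card_kap (by omega)).trans hC.1, by simp [mem_kap, hC.2.1],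
        by simp [mem_kap, hyσ, hC.2.2.1], by omega⟩
    · rw [mem_coe, mem_lev] at hC ⊢
      have := ci_kap (le_refl σ.val) C
      exact ⟨(card_kap (by omega)).trans hC.1, by simp [mem_kap, hC.2.1],
        by simp [mem_kap, hyσ, hC.2.2.1], by omega⟩
  rw [h2] at h1
  have h3 : (0 : ℚ) < (lev k fun C => σ ∉ C ∧ y ∉ C ∧ ci σ.val C = j + 1).card := by
    have n1 := card_hi_compl σ (∅ : Finset (Fin n))
    obtain ⟨T, t1, t2⟩ := exists_subset_card_eq (s := hi σ (∅ : Finset (Fin n))ᶜ)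
      (n := k - (j + 1)) (by simp [hi] at n1 ⊢; omega)
    have t3 : ∀ x ∈ T, σ < x := fun x hx => (mem_hi.1 (t1 hx)).2
    have n2 : ci σ.val (lo (j + 1) univ ∪ T) = j + 1 := by
      refine Eq.trans ?_ (ci_univ (n := n) (l := j + 1) (by omega))
      unfold ci
      congr 1
      ext x
      have := t3 x
      simp only [mem_lo, mem_union]
      grind
    have n3 : σ ∉ lo (j + 1) univ ∪ T := by
      have := t3 σ
      simp only [mem_lo, mem_union]
      grind
    refine Nat.cast_pos.2 (card_pos.2 ⟨_, mem_lev.2 ⟨?_, n3, ?_, n2⟩⟩)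
    · rw [card_union_of_disjoint (disjoint_left.2 fun x x1 x2 => ?_), t2]
      · have := ci_univ (n := n) (l := j + 1) (by omega)
        unfold ci at this
        omega
      · have := t3 x x2
        simp only [mem_lo] at x1
        grind
    · have := t3 y
      simp only [mem_lo, mem_union]
      grind
  have p1 : (0 : ℚ) < n - k - (j + 1) := by
    have : (k : ℚ) + (j + 1) < n := by exact_mod_cast (by omega)
    linarith
  have p2 : (0 : ℚ) < j + 2 := by positivity
  refine ⟨_ / ((n - k - (j + 1)) * (j + 2)), div_pos h3 (mul_pos p1 p2), fun c => ?_⟩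
  have h4 := wt_flip (f := fun B : Finset (Fin n) => j + 1 ≤ ci (2 * j + 1) B)
    (R := fun C => σ ∉ C ∧ y ∉ C ∧ ci σ.val C = j + 1) c k
    (fun A => by have := e3 A; omega) fun A h => by have := e1 A; grind
  have e5 : lev k (flip (fun B : Finset (Fin n) => j + 1 ≤ ci (2 * j + 1) B)
      fun C => σ ∉ C ∧ y ∉ C ∧ ci σ.val C = j + 1) = AA n k (j + 1) := lev_congr fun A _ => by
    have := e1 A
    have := e2 A
    have := e4 A
    simp only [flip, mem_compl]
    grind
  have e6 : (lev k fun A => σ ∉ Aᶜ ∧ y ∉ Aᶜ ∧ ci σ.val Aᶜ = j + 1) =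
      lev k fun C => σ ∈ C ∧ y ∈ C ∧ ci σ.val C = j + 1 := lev_congr fun A _ => by
    have := e4 A
    simp only [mem_compl]
    grind
  have cl : ∀ {p q : Prop} (A : Finset (Fin n)) (u v : Fin n), u.val < 2 * j + 1 →
      v.val < 2 * j + 1 → u ∈ A → v ∉ A →
      A.card = k ∧ (σ ∈ A ↔ p) ∧ (y ∈ A ↔ q) ∧ ci σ.val A = j + 1 →
      (sw A u v).card = k ∧ (σ ∈ sw A u v ↔ p) ∧ (y ∈ sw A u v ↔ q) ∧
        ci σ.val (sw A u v) = j + 1 := by
    intro p q A u v a b d e h
    refine ⟨(card_sw d e).trans h.1, ?_, ?_, (ci_sw_in d e (by omega) (by omega)).trans h.2.2.2⟩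
    · rw [← h.2.1, mem_sw]
      grind
    · rw [← h.2.2.1, mem_sw]
      grind
  have h5 : wt c (lev k fun C => σ ∉ C ∧ y ∉ C ∧ ci σ.val C = j + 1) =
      (lev k fun C => σ ∉ C ∧ y ∉ C ∧ ci σ.val C = j + 1).card * (c - 1) := by
    rw [wt_av c (l := 2 * j + 1) (by omega) (fun A hA u v a b d e => ?_)
      fun A hA => ⟨y, hy.le, (mem_lev.1 hA).2.2.1⟩, ← nsmul_eq_mul, ← sum_const]
    · refine sum_congr rfl fun A hA => ?_
      rw [mem_lev] at hA
      have := e1 A
      rw [if_neg hA.2.2.1, hA.2.2.2] at this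
      rw [← add_zero (ci _ A), ← this, rr]
      push_cast
      congr 1
      rw [div_eq_one_iff_eq] <;> linarith
    · rw [mem_lev] at hA ⊢
      have := cl (p := False) (q := False) A u v a b d e (by simpa using hA)
      simpa only [iff_false] using this
  have h6 : wt c (lev k fun C => σ ∈ C ∧ y ∈ C ∧ ci σ.val C = j + 1) =
      (lev k fun C => σ ∈ C ∧ y ∈ C ∧ ci σ.val C = j + 1).card * (c - j / (j + 2)) := by
    have e7 : ∀ A ∈ lev k fun C => σ ∈ C ∧ y ∈ C ∧ ci σ.val C = j + 1,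
        ci (2 * j + 1) A = j := fun A hA => by
      rw [mem_lev] at hA
      have := e1 A
      rw [if_pos hA.2.2.1, hA.2.2.2] at this
      omega
    rw [wt_av c (l := 2 * j + 1) (by omega) (fun A hA u v a b d e => ?_)
      fun A hA => ?_, ← nsmul_eq_mul, ← sum_const]
    · refine sum_congr rfl fun A hA => ?_
      rw [e7 A hA, rr]
      push_cast
      congr 2
      ring
    · rw [mem_lev] at hA ⊢
      have := cl (p := True) (q := True) A u v a b d e (by simpa using hA)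
      simpa only [iff_true] using this
    · by_contra hc
      push Not at hc
      have := ci_eq_of_all (l := 2 * j + 1) (by omega) fun x hx => hc x hx.le
      have := e7 A hA
      omega
  rw [e5, e6, h5, h6] at h4
  rw [(AA_shifted n k _).W_eq, (AA_shifted n k _).W_eq, h4]
  have e8 : (σ.val : ℚ) = 2 * j + 2 := by rw [hσ]; push_cast; ring
  rw [e8] at h1
  push_cast at h1
  change wt c (AA n k j) - _ + _ - _ = _
  field_simp
  linear_combination (-(c * (j + 2)) + j) * h1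

/-- the slope between two consecutive majority families -/
def mu (n k a : ℕ) : ℚ := 1 + 2 * ((k : ℚ) - a) / ((a + 1) * (n - 2 * k))

theorem one_lt_mu (hn : 2 * k < n) (ha : a < k) : 1 < mu n k a := by
  have h1 : (a : ℚ) < k := by exact_mod_cast ha
  have h2 : 2 * (k : ℚ) < n := by exact_mod_cast hn
  exact lt_add_of_pos_right _ (div_pos (by linarith) (mul_pos (by positivity) (by linarith)))

theorem W_step_mu (hn : 2 * k < n) (hj : j + 1 < k) (a : ℕ) : ∃ X : ℚ, 0 < X ∧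
    W (mu n k a) (AA n k (j + 1)) - W (mu n k a) (AA n k j) = X * (a - (j + 1)) := by
  obtain ⟨X, h1, h2⟩ := W_step hn hj
  have h3 : (0 : ℚ) < n - 2 * k := by
    have : 2 * (k : ℚ) < n := by exact_mod_cast hn
    linarith
  refine ⟨X * (2 * (k + 1) / (a + 1)), by positivity, ?_⟩
  rw [h2, mu]
  field_simp
  ring

theorem W_lt_up (hn : 2 * k < n) (ha : a + 1 < k) (hj : j < a) :
    W (mu n k (a + 1)) (AA n k j) < W (mu n k (a + 1)) (AA n k a) := by
  have : ∀ i, j < i → i ≤ a → W (mu n k (a + 1)) (AA n k j) < W (mu n k (a + 1)) (AA n k i) := by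
    intro i hi
    induction i, hi using Nat.le_induction with
    | base =>
      intro h
      obtain ⟨X, h1, h2⟩ := W_step_mu (j := j) hn (by omega) (a + 1)
      have : (j : ℚ) < a := by exact_mod_cast hj
      push_cast at h2
      nlinarith
    | succ i hi ih =>
      intro h
      obtain ⟨X, h1, h2⟩ := W_step_mu (j := i) hn (by omega) (a + 1)
      have : (i : ℚ) < a := by exact_mod_cast h
      have := ih (by omega)
      push_cast at h2
      nlinarith
  exact this a hj le_rfl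

theorem W_lt_down (hn : 2 * k < n) (ha : a < j) (hj : j < k) :
    W (mu n k a) (AA n k j) < W (mu n k a) (AA n k a) := by
  induction j, ha using Nat.le_induction with
  | base =>
    obtain ⟨X, h1, h2⟩ := W_step_mu (j := a) hn hj a
    nlinarith
  | succ i hi ih =>
    obtain ⟨X, h1, h2⟩ := W_step_mu (j := i) hn hj a
    have : (a : ℚ) < i := by exact_mod_cast hi
    have := ih (by omega)
    nlinarith

theorem W_eq_mu (hn : 2 * k < n) (ha : a + 1 < k) :
    W (mu n k (a + 1)) (AA n k a) = W (mu n k (a + 1)) (AA n k (a + 1)) := by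
  obtain ⟨X, h1, h2⟩ := W_step_mu (j := a) hn ha (a + 1)
  push_cast at h2
  linarith

theorem card_AA_lt (hn : 2 * k < n) (hj : j + 1 < k) :
    (AA n k (j + 1)).card < (AA n k j).card := by
  obtain ⟨X, h1, h2⟩ := W_step hn hj
  have h3 := h2 1
  have h4 := h2 2
  have h5 : 2 * (k : ℚ) < n := by exact_mod_cast hn
  simp only [W] at h3 h4
  have : 0 < X * ((j + 2) * (n - 2 * k)) := mul_pos h1 (mul_pos (by positivity) (by linarith))
  exact_mod_cast (by nlinarith : ((AA n k (j + 1)).card : ℚ) < (AA n k j).card)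

/-- a copy of the majority family -/
def Copy (k j : ℕ) (𝒜 : Finset (Finset (Fin n))) : Prop :=
  ∃ Z : Finset (Fin n), Z.card = 2 * j + 1 ∧ 𝒜 = mj k (j + 1) Z

theorem Copy.W_eq (hn : 2 * k < n) (hj : j < k) (h : Copy k j 𝒜) : W c 𝒜 = W c (AA n k j) := by
  obtain ⟨Z, a, rfl⟩ := h
  rw [AA_eq]
  exact W_mj (by omega) hj a (ci_univ (by omega))

theorem Copy.card_eq (hn : 2 * k < n) (hj : j < k) (h : Copy k j 𝒜) :
    𝒜.card = (AA n k j).card := by
  obtain ⟨Z, a, rfl⟩ := h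
  rw [AA_eq]
  exact card_mj (a.trans (ci_univ (by omega)).symm)

theorem hull (hn : 2 * k < n) (ha : a + 1 < k) (h1 : 𝒜 ⊆ powersetCard k univ)
    (hi : H54.Inter 𝒜) : W (mu n k (a + 1)) 𝒜 ≤ W (mu n k (a + 1)) (AA n k (a + 1)) ∧
      (W (mu n k (a + 1)) 𝒜 = W (mu n k (a + 1)) (AA n k (a + 1)) ↔
        Copy k (a + 1) 𝒜 ∨ Copy k a 𝒜) := by
  classical
  have hc := one_lt_mu hn ha
  have key : ∀ ℬ : Finset (Finset (Fin n)), Best (mu n k (a + 1)) k ℬ →
      Copy k (a + 1) ℬ ∨ Copy k a ℬ := by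
    intro ℬ hb
    obtain ⟨j, j1, j2⟩ := hb.copy hn (by omega) hc
    have e := Copy.W_eq (c := mu n k (a + 1)) hn j1 j2
    have h2 := hb.mx (AA n k (a + 1)) (lev_subset _ _)
      (AA_eq n k _ ▸ inter_mj (ci_univ (by omega)))
    rcases lt_trichotomy j a with h | h | h
    · have := W_lt_up hn ha h
      have := W_eq_mu hn ha
      linarith
    · exact Or.inr (h ▸ j2)
    · rcases (Nat.succ_le_of_lt h).eq_or_lt with h | h
      · subst h
        exact Or.inl j2
      · have := W_lt_down hn h j1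
        linarith
  have val : ∀ ℬ : Finset (Finset (Fin n)), Copy k (a + 1) ℬ ∨ Copy k a ℬ →
      W (mu n k (a + 1)) ℬ = W (mu n k (a + 1)) (AA n k (a + 1)) := by
    rintro ℬ (h | h)
    · exact h.W_eq hn ha
    · exact (h.W_eq hn (by omega)).trans (W_eq_mu hn ha)
  obtain ⟨ℬ, b1, b2⟩ := exists_max_image
    ((powersetCard k (univ : Finset (Fin n))).powerset.filter H54.Inter) (W (mu n k (a + 1)))
    ⟨𝒜, mem_filter.2 ⟨mem_powerset.2 h1, hi⟩⟩
  rw [mem_filter, mem_powerset] at b1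
  have b3 : ∀ 𝒞 : Finset (Finset (Fin n)), 𝒞 ⊆ powersetCard k univ → H54.Inter 𝒞 →
      W (mu n k (a + 1)) 𝒞 ≤ W (mu n k (a + 1)) ℬ :=
    fun 𝒞 u v => b2 𝒞 (mem_filter.2 ⟨mem_powerset.2 u, v⟩)
  have b4 := val ℬ (key ℬ ⟨b1.1, b1.2, b3⟩)
  exact ⟨b4 ▸ b3 𝒜 h1 hi, fun e => key 𝒜 ⟨h1, hi, fun 𝒞 u v => (e.trans b4.symm) ▸ b3 𝒞 u v⟩,
    val 𝒜⟩

end Pool.Agent.MP_d50107_co.H92
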