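import Pool.Agent.MP_d50107_co.H92.Struct

namespace Pool.Agent.MP_d50107_co.H92

open Finset
open scoped FinsetFamily

variable {n : ℕ} {c : ℚ} {k j t : ℕ} {Z Z' : Finset (Fin n)} {𝒜 : Finset (Finset (Fin n))}

/-- the `k`-sets with at least `t` points in `Z` -/
noncomputable def mj (k t : ℕ) (Z : Finset (Fin n)) : Finset (Finset (Fin n)) :=
  lev k fun B => t ≤ (B ∩ Z).card

theorem mem_mj {B : Finset (Fin n)} : B ∈ mj k t Z ↔ B.card = k ∧ t ≤ (B ∩ Z).card := mem_lev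

theorem ci_eq_inter (l : ℕ) (B : Finset (Fin n)) : ci l B = (B ∩ lo l univ).card := by
  unfold ci
  congr 1
  ext x
  simp

theorem lev_eq_mj (k t l : ℕ) : (lev k fun B : Finset (Fin n) => t ≤ ci l B) = mj k t (lo l univ) :=
  lev_congr fun B _ => by rw [ci_eq_inter]

theorem inter_mj (hZ : Z.card = 2 * j + 1) : H54.Inter (mj k (j + 1) Z) := by
  intro A hA B hB
  rw [mem_mj] at hA hB
  have h1 := card_union_add_card_inter (A ∩ Z) (B ∩ Z)
  have h2 : (A ∩ Z ∪ B ∩ Z).card ≤ Z.card :=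
    card_le_card (union_subset inter_subset_right inter_subset_right)
  obtain ⟨x, hx⟩ : (A ∩ Z ∩ (B ∩ Z)).Nonempty := card_pos.1 (by omega)
  simp only [mem_inter] at hx
  exact ⟨x, hx.1.1, hx.2.1⟩

theorem mj_max (hn : 2 * k < n) (hZ : Z.card = 2 * j + 1) (hj : j < k)
    (h1 : 𝒜 ⊆ powersetCard k univ) (hi : H54.Inter 𝒜) (h : mj k (j + 1) Z ⊆ 𝒜) :
    𝒜 = mj k (j + 1) Z := by
  refine Subset.antisymm (fun B hB => ?_) h
  have hk := (mem_powersetCard.1 (h1 hB)).2
  refine mem_mj.2 ⟨hk, by_contra fun hc => ?_⟩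
  have h2 := card_sdiff_add_card_inter Z B
  rw [inter_comm] at h2
  obtain ⟨S, s1, s2⟩ := exists_subset_card_eq (s := Z \ B) (n := j + 1) (by omega)
  have h3 := card_compl_add_card B
  rw [Fintype.card_fin] at h3
  obtain ⟨T, t1, t2, t3⟩ := exists_subsuperset_card_eq (s := S) (t := Bᶜ) (n := k)
    (fun x hx => mem_compl.2 (mem_sdiff.1 (s1 hx)).2) (by omega) (by omega)
  obtain ⟨x, x1, x2⟩ := hi T (h (mem_mj.2 ⟨t3, s2 ▸ card_le_card
    (subset_inter t1 (s1.trans sdiff_subset))⟩)) B hB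
  exact mem_compl.1 (t2 x1) x2

theorem shadow_mj (hk : k < n) (hZ : t < Z.card) : ∂ (mj (k + 1) (t + 1) Z) = mj k t Z := by
  ext L
  rw [mem_shadow_iff_insert_mem, mem_mj]
  constructor
  · rintro ⟨x, x1, x2⟩
    rw [mem_mj, card_insert_of_notMem x1] at x2
    have : (insert x L ∩ Z).card ≤ (insert x (L ∩ Z)).card := card_le_card fun z => by
      simp only [mem_inter, mem_insert]
      tauto
    have := card_insert_le x (L ∩ Z)
    omega
  · rintro ⟨a, b⟩
    rcases b.eq_or_lt with e | e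
    · obtain ⟨x, hx⟩ := sdiff_nonempty_of_card_lt_card (s := L ∩ Z) (t := Z) (by omega)
      simp only [mem_sdiff, mem_inter] at hx
      have hL : x ∉ L := fun e => hx.2 ⟨e, hx.1⟩
      refine ⟨x, hL, mem_mj.2 ⟨by rw [card_insert_of_notMem hL, a], ?_⟩⟩
      rw [insert_inter_of_mem hx.1, card_insert_of_notMem (by simp [hL]), e]
    · obtain ⟨x, hx⟩ := sdiff_nonempty_of_card_lt_card (s := L) (t := univ) (by simpa [a] using hk)
      have hL := (mem_sdiff.1 hx).2
      exact ⟨x, hL, mem_mj.2 ⟨by rw [card_insert_of_notMem hL, a], le_trans e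
        (card_le_card (inter_subset_inter_right (subset_insert _ _)))⟩⟩

theorem card_mj_le (h : Z.card = Z'.card) : (mj k t Z).card ≤ (mj k t Z').card := by
  let e : Z ≃ Z' := equivOfCardEq h
  let σ : Equiv.Perm (Fin n) := Equiv.extendSubtype e
  have hσ : ∀ x ∈ Z, σ x ∈ Z' := fun x hx => Equiv.extendSubtype_mem e x hx
  refine card_le_card_of_injOn (fun B => B.map σ.toEmbedding) (fun B hB => ?_)
    (map_injective _).injOn
  rw [mem_coe, mem_mj] at hB ⊢
  refine ⟨by rw [card_map, hB.1], hB.2.trans ?_⟩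
  rw [← card_map σ.toEmbedding]
  refine card_le_card fun y hy => ?_
  obtain ⟨x, hx, rfl⟩ := mem_map.1 hy
  rw [mem_inter] at hx ⊢
  exact ⟨mem_map_of_mem _ hx.1, hσ x hx.2⟩

theorem card_mj (h : Z.card = Z'.card) : (mj k t Z).card = (mj k t Z').card :=
  le_antisymm (card_mj_le h) (card_mj_le h.symm)

theorem card_shadow_mj (hk : k ≤ n) (hj : j < k) (hZ : Z.card = 2 * j + 1)
    (hZ' : Z'.card = 2 * j + 1) : (∂ (mj k (j + 1) Z)).card = (∂ (mj k (j + 1) Z')).card := by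
  obtain ⟨k, rfl⟩ : ∃ k', k = k' + 1 := ⟨k - 1, by omega⟩
  rw [shadow_mj hk (by omega), shadow_mj hk (by omega), card_mj (hZ.trans hZ'.symm)]

theorem W_mj (hk : k ≤ n) (hj : j < k) (hZ : Z.card = 2 * j + 1) (hZ' : Z'.card = 2 * j + 1) :
    W c (mj k (j + 1) Z) = W c (mj k (j + 1) Z') := by
  rw [W, W, card_shadow_mj hk hj hZ hZ', card_mj (hZ.trans hZ'.symm)]

/-- optimal among the intersecting `k`-graphs -/
structure Best (c : ℚ) (k : ℕ) (𝒜 : Finset (Finset (Fin n))) : Prop where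
  sub : 𝒜 ⊆ powersetCard k univ
  int : H54.Inter 𝒜
  mx : ∀ ℬ : Finset (Finset (Fin n)), ℬ ⊆ powersetCard k univ → H54.Inter ℬ → W c ℬ ≤ W c 𝒜

theorem Best.pos (hn : 2 * k < n) (hk : 0 < k) (hc : 1 < c) (h : Best c k 𝒜) : 0 < W c 𝒜 := by
  obtain ⟨k, rfl⟩ : ∃ k', k = k' + 1 := ⟨k - 1, by omega⟩
  obtain ⟨Z, -, hZ⟩ := exists_subset_card_eq (s := (univ : Finset (Fin n))) (n := 2 * k + 1)
    (by simp; omega)
  have e : ∀ t, mj t t Z = powersetCard t Z := fun t => by
    ext B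
    rw [mem_mj, mem_powersetCard]
    constructor
    · rintro ⟨a, b⟩
      exact ⟨inter_eq_left.1 (eq_of_subset_of_card_le inter_subset_left (a ▸ b)), a⟩
    · rintro ⟨a, b⟩
      exact ⟨b, by rw [inter_eq_left.2 a, b]⟩
  refine lt_of_lt_of_le ?_ (h.mx (mj (k + 1) (k + 1) Z) (lev_subset _ _) (inter_mj hZ))
  rw [W, shadow_mj (by omega) (by omega), e, e, card_powersetCard, card_powersetCard, hZ,
    Nat.choose_symm_half]
  have : (0 : ℚ) < (2 * k + 1).choose k := by exact_mod_cast Nat.choose_pos (by omega)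
  nlinarith

theorem Best.of_shifted (hn : 2 * k < n) (hk : 0 < k) (hc : 1 < c) (h : Best c k 𝒜)
    (hs : Shifted 𝒜) : ∃ j < k, ∃ Z : Finset (Fin n), Z.card = 2 * j + 1 ∧ 𝒜 = mj k (j + 1) Z := by
  classical
  obtain ⟨ℬ, b1, b2⟩ := exists_min_image
    (𝒜.powerset.filter fun ℬ => Shifted ℬ ∧ W c 𝒜 ≤ W c ℬ) card
    ⟨𝒜, mem_filter.2 ⟨mem_powerset_self _, hs, le_rfl⟩⟩
  rw [mem_filter, mem_powerset] at b1
  obtain ⟨j, j1, j2⟩ := opt_struct (c := c) hn (b1.1.trans h.sub) (h.int.mono b1.1) b1.2.1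
    ⟨fun 𝒞 a b => (h.mx 𝒞 a b).trans b1.2.2, fun 𝒞 a b => lt_of_not_ge fun e =>
      absurd (b2 𝒞 (mem_filter.2 ⟨mem_powerset.2 (a.1.trans b1.1), b, b1.2.2.trans e⟩))
        (not_le.2 (card_lt_card a))⟩
  rw [lev_eq_mj] at j2
  have hj : j < k := by
    by_contra hc'
    have : ℬ = ∅ := eq_empty_of_forall_notMem fun B hB => by
      rw [j2, mem_mj] at hB
      have := card_le_card (inter_subset_left (s₁ := B) (s₂ := lo (2 * j + 1) univ))
      omega
    have h1 := (h.pos hn hk hc).trans_le b1.2.2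
    simp [this, W] at h1
  exact ⟨j, hj, _, ci_univ j1, mj_max hn (ci_univ j1) hj h.sub h.int (j2 ▸ b1.1)⟩

theorem card_sw_inter {K : Finset (Fin n)} {u v : Fin n} (hu : u ∈ K) (hv : v ∉ K) :
    (sw K u v ∩ Z).card + (if u ∈ Z then 1 else 0) = (K ∩ Z).card + if v ∈ Z then 1 else 0 := by
  have h1 : (K.erase u ∩ Z).card + (if u ∈ Z then 1 else 0) = (K ∩ Z).card := by
    rw [erase_inter]
    split_ifs with h
    · exact card_erase_add_one (mem_inter.2 ⟨hu, h⟩)
    · rw [erase_eq_of_notMem (by simp [h]), add_zero]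
  rw [sw, ← h1]
  by_cases h : v ∈ Z
  · rw [insert_inter_of_mem h, card_insert_of_notMem (by simp [hv]), if_pos h]
    omega
  · rw [insert_inter_of_notMem h, if_neg h]
    omega

theorem unshift (hn : 2 * k < n) (hj : j < k) (hZ : Z.card = 2 * j + 1) {x y : Fin n}
    (hxy : x ≠ y) (hi : H54.Inter 𝒜) (h : H54.sh y x 𝒜 = mj k (j + 1) Z)
    (hle : (∂ 𝒜).card ≤ (∂ (H54.sh y x 𝒜)).card) :
    ∃ Z' : Finset (Fin n), Z'.card = 2 * j + 1 ∧ 𝒜 = mj k (j + 1) Z' := by
  have fin : ∀ Z' : Finset (Fin n), Z'.card = Z.card → mj k (j + 1) Z' ⊆ 𝒜 →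
      ∃ Z' : Finset (Fin n), Z'.card = 2 * j + 1 ∧ 𝒜 = mj k (j + 1) Z' := fun Z' h1 h2 =>
    ⟨Z', h1.trans hZ, (eq_of_subset_of_card_le h2
      (by rw [card_mj h1, ← h, H54.card_sh])).symm⟩
  have out : ∀ K ∈ mj k (j + 1) Z, K ∉ 𝒜 →
      y ∈ K ∧ x ∉ K ∧ sw K y x ∈ 𝒜 ∧ (sw K y x ∩ Z).card ≤ j := by
    intro K hK hK'
    have hk := (mem_mj.1 hK).1
    rw [← h] at hK
    obtain ⟨-, a1, a2, a3⟩ := ((H54.mem_sh hxy).1 hK).resolve_left fun e => hK' e.1
    refine ⟨a1, a2, a3, by_contra fun e => ?_⟩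
    have : sw K y x ∈ H54.sh y x 𝒜 := by
      rw [h]
      exact mem_mj.2 ⟨(card_sw a1 a2).trans hk, by omega⟩
    rcases (H54.mem_sh hxy).1 this with ⟨-, b2⟩ | ⟨b1, -⟩
    · have := b2 (by simp) (by simp [hxy.symm])
      exact hK' (by rwa [← sw_sw a1 a2])
    · exact b1 a3
  by_cases hc : y ∈ Z ∧ x ∉ Z
  swap
  · refine fin Z rfl fun K hK => by_contra fun e => ?_
    obtain ⟨a1, a2, -, a4⟩ := out K hK e
    have := card_sw_inter (Z := Z) a1 a2
    have := (mem_mj.1 hK).2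
    grind
  obtain ⟨hy, hx⟩ := hc
  let crit : Finset (Fin n) → Prop := fun K =>
    K.card = k ∧ (K ∩ Z).card = j + 1 ∧ y ∈ K ∧ x ∉ K
  have c1 : ∀ K ∈ mj k (j + 1) Z, K ∉ 𝒜 → crit K := fun K hK e => by
    obtain ⟨a1, a2, -, a4⟩ := out K hK e
    have := card_sw_inter (Z := Z) a1 a2
    rw [if_pos hy, if_neg hx] at this
    have := mem_mj.1 hK
    exact ⟨this.1, by omega, a1, a2⟩
  have c2 : ∀ K, crit K → K ∉ 𝒜 → sw K y x ∈ 𝒜 := fun K a b =>
    (out K (mem_mj.2 ⟨a.1, a.2.1.ge⟩) b).2.2.1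
  have c3 : ∀ K ∈ 𝒜, x ∉ K → ∀ K', crit K' → (∀ z ∈ K, z ∈ K' → z = y) → K' ∈ 𝒜 := by
    intro K a b K' d e
    by_contra g
    obtain ⟨z, z1, z2⟩ := hi K a _ (c2 K' d g)
    rw [mem_sw] at z2
    grind
  have csw : ∀ K, crit K → ∀ u ∈ K, ∀ v ∉ K, u ≠ y → v ≠ x → (u ∈ Z ↔ v ∈ Z) →
      crit (sw K u v) := by
    intro K a u b v d e g i
    have := card_sw_inter (Z := Z) b d
    simp only [i] at this
    exact ⟨(card_sw b d).trans a.1, by have := a.2.1; omega, by simp [e.symm, a.2.2.1],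
      by simp [g.symm, a.2.2.2]⟩
  obtain ⟨k, rfl⟩ : ∃ k', k = k' + 1 := ⟨k - 1, by omega⟩
  have hsh : H54.sh y x (∂ 𝒜) = mj k j Z := by
    rw [← shadow_mj (by omega) (by omega), ← h]
    exact (eq_of_subset_of_card_le (H54.shadow_sh_subset _ _ _) (by rwa [H54.card_sh])).symm
  have c4 : ∀ K ∈ 𝒜, crit K → ∀ u ∈ K, ∀ v ∉ K, u ≠ y → v ≠ x → (u ∈ Z ↔ v ∈ Z) →
      sw K u v ∈ 𝒜 := by
    intro K a b u d v e g i l
    have hK' := csw K b u d v e g i l
    obtain ⟨b1, b2, b3, b4⟩ := b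
    by_cases hu : u ∈ Z
    · by_contra hc
      have s1 := erase_mem_shadow (c2 _ hK' hc) (a := v) (by simp; grind)
      have s2 := erase_mem_shadow a d
      have e1 : (sw (sw K u v) y x).erase v = sw (K.erase u) y x := by
        ext z
        simp only [mem_erase, mem_sw]
        grind
      rw [e1] at s1
      have b5 : y ∈ K.erase u := mem_erase.2 ⟨g.symm, b3⟩
      have b6 : x ∉ K.erase u := by simp [b4]
      have s3 : sw (K.erase u) y x ∈ H54.sh y x (∂ 𝒜) :=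
        (H54.mem_sh hxy).2 (Or.inl ⟨s1, fun _ _ => by rwa [← sw_sw b5 b6] at s2⟩)
      rw [hsh, mem_mj] at s3
      have := card_sw_inter (Z := Z) b5 b6
      rw [if_pos hy, if_neg hx, erase_inter] at this
      have := card_erase_add_one (mem_inter.2 ⟨d, hu⟩)
      omega
    · have n1 := card_union_add_card_inter K Z
      have n2 := card_compl_add_card (insert x (insert v (K ∪ Z)))
      have n3 := card_insert_le x (insert v (K ∪ Z))
      have n4 := card_insert_le v (K ∪ Z)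
      rw [Fintype.card_fin] at n2
      obtain ⟨U, u1, u2⟩ := exists_subset_card_eq (s := (insert x (insert v (K ∪ Z)))ᶜ)
        (n := k - j) (by omega)
      have u3 : ∀ z ∈ U, z ≠ x ∧ z ≠ v ∧ z ∉ K ∧ z ∉ Z := fun z hz => by
        simpa [not_or] using u1 hz
      have n5 := card_sdiff_add_card_inter Z K
      rw [inter_comm] at n5
      have n6 : (insert y (Z \ K)).card = j + 1 := by
        rw [card_insert_of_notMem (by simp [b3])]
        omega
      have hK'' : crit (insert y (Z \ K) ∪ U) := by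
        refine ⟨?_, ?_, by simp, ?_⟩
        · rw [card_union_of_disjoint (disjoint_left.2 fun z z1 z2 => ?_), n6, u2]
          · omega
          · have := u3 z z2
            simp only [mem_insert, mem_sdiff] at z1
            grind
        · rw [← n6]
          congr 1
          ext z
          have := u3 z
          simp only [mem_insert, mem_sdiff, mem_inter, mem_union]
          grind
        · have := u3 x
          simp only [mem_insert, mem_sdiff, mem_union]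
          grind
      refine c3 _ (c3 K a b4 _ hK'' fun z z1 z2 => ?_) hK''.2.2.2 _ hK' fun z z1 z2 => ?_
      · have := u3 z
        simp only [mem_insert, mem_sdiff, mem_union] at z2
        grind
      · have := u3 z
        simp only [mem_insert, mem_sdiff, mem_union, mem_sw] at z1 z2
        grind
  by_cases hex : ∃ K ∈ 𝒜, crit K
  · refine fin Z rfl fun K' hK' => by_contra fun e => ?_
    have a := c1 K' hK' e
    obtain ⟨K, b, d⟩ := hex
    induction hm : (K \ K').card generalizing K with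
    | zero =>
      exact e (eq_of_subset_of_card_le (sdiff_eq_empty_iff_subset.1 (card_eq_zero.1 hm))
        (a.1.trans d.1.symm).le ▸ b)
    | succ m ih =>
      obtain ⟨u, hu⟩ : (K \ K').Nonempty := card_pos.1 (by omega)
      have hu' := mem_sdiff.1 hu
      obtain ⟨v, v1, v2, v3⟩ : ∃ v ∈ K', v ∉ K ∧ (u ∈ Z ↔ v ∈ Z) := by
        by_contra hc
        push Not at hc
        by_cases huZ : u ∈ Z
        · have : (K' ∩ Z).card < (K ∩ Z).card := card_lt_card ⟨fun z => by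
            have := hc z
            simp only [mem_inter]
            grind, fun s => hu'.2 (mem_inter.1 (s (mem_inter.2 ⟨hu'.1, huZ⟩))).1⟩
          have := a.2.1
          have := d.2.1
          omega
        · have : (K' \ Z).card < (K \ Z).card := card_lt_card ⟨fun z => by
            have := hc z
            simp only [mem_sdiff]
            grind, fun s => hu'.2 (mem_sdiff.1 (s (mem_sdiff.2 ⟨hu'.1, huZ⟩))).1⟩
          have := card_sdiff_add_card_inter K Z
          have := card_sdiff_add_card_inter K' Z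
          have := a.1
          have := a.2.1
          have := d.1
          have := d.2.1
          omega
      have g1 : u ≠ y := fun e => hu'.2 (e ▸ a.2.2.1)
      have g2 : v ≠ x := fun e => a.2.2.2 (e ▸ v1)
      refine ih _ (c4 K b d u hu'.1 v v2 g1 g2 v3) (csw K d u hu'.1 v v2 g1 g2 v3) ?_
      have : sw K u v \ K' = (K \ K').erase u := by
        ext z
        simp only [mem_sdiff, mem_sw, mem_erase]
        grind
      rw [this, card_erase_of_mem hu, hm]
      rfl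
  · refine fin (sw Z y x) (card_sw hy hx) fun K hK => by_contra fun e => ?_
    rw [mem_mj, inter_comm] at hK
    have h1 := card_sw_inter (Z := K) hy hx
    rw [inter_comm Z] at h1
    by_cases h2 : j + 1 ≤ (K ∩ Z).card
    · obtain ⟨-, a2, a3, a4⟩ := c1 K (mem_mj.2 ⟨hK.1, h2⟩) e
      rw [if_pos a3, if_neg a4] at h1
      omega
    · have h3 : x ∈ K ∧ y ∉ K := by grind
      have h4 := card_sw_inter (Z := Z) h3.1 h3.2
      rw [if_neg hx, if_pos hy] at h4
      rw [if_neg h3.2, if_pos h3.1] at h1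
      have h5 : crit (sw K x y) := ⟨(card_sw h3.1 h3.2).trans hK.1, by omega, by simp, by simp [hxy]⟩
      have := c2 _ h5 fun e' => hex ⟨_, e', h5⟩
      rw [sw_sw h3.1 h3.2] at this
      exact e this

theorem pot_sh_lt {x y : Fin n} (hyx : y < x) {K : Finset (Fin n)} (hK : K ∈ 𝒜) (hx : x ∈ K)
    (hy : y ∉ K) (h : sw K x y ∉ 𝒜) :
    ∑ A ∈ H54.sh y x 𝒜, ∑ z ∈ A, z.val < ∑ A ∈ 𝒜, ∑ z ∈ A, z.val := by
  let φ : Finset (Fin n) → Finset (Fin n) := fun A =>
    if x ∈ A ∧ y ∉ A ∧ sw A x y ∉ 𝒜 then sw A x y else A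
  have h1 : H54.sh y x 𝒜 ⊆ 𝒜.image φ := fun A hA => by
    rcases (H54.mem_sh hyx.ne').1 hA with ⟨a1, a2⟩ | ⟨a1, a2, a3, a4⟩
    · exact mem_image.2 ⟨A, a1, if_neg fun e => e.2.2 (a2 e.1 e.2.1)⟩
    · refine mem_image.2 ⟨sw A y x, a4, ?_⟩
      simp only [φ, sw_sw a2 a3]
      exact if_pos ⟨by simp, by simp [hyx.ne], a1⟩
  have h2 : ∀ A : Finset (Fin n), x ∈ A → y ∉ A → ∑ z ∈ sw A x y, z.val < ∑ z ∈ A, z.val := by
    intro A a b
    rw [sw, sum_insert (by simp [b]), ← add_sum_erase A _ a]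
    exact Nat.add_lt_add_right hyx _
  refine lt_of_le_of_lt ((sum_le_sum_of_subset h1).trans
    (sum_image_le_of_nonneg fun _ _ => Nat.zero_le _)) (sum_lt_sum (fun A _ => ?_) ⟨K, hK, ?_⟩)
  · simp only [φ]
    split_ifs with e
    · exact (h2 A e.1 e.2.1).le
    · exact le_rfl
  · simp only [φ]
    rw [if_pos ⟨hx, hy, h⟩]
    exact h2 K hx hy

theorem Best.copy (hn : 2 * k < n) (hk : 0 < k) (hc : 1 < c) (h : Best c k 𝒜) :
    ∃ j < k, ∃ Z : Finset (Fin n), Z.card = 2 * j + 1 ∧ 𝒜 = mj k (j + 1) Z := by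
  induction hm : ∑ A ∈ 𝒜, ∑ z ∈ A, z.val using Nat.strong_induction_on generalizing 𝒜 with
  | _ m ih =>
  by_cases hs : Shifted 𝒜
  · exact h.of_shifted hn hk hc hs
  unfold Shifted at hs
  push Not at hs
  obtain ⟨K, hK, x, y, a, b, d, e⟩ := hs
  have h1 := H54.sh_subset_powersetCard a.ne' (mem_univ y) h.sub
  have h2 := h.int.sh a.ne'
  have h3 : W c 𝒜 ≤ W c (H54.sh y x 𝒜) := by
    rw [W, W, H54.card_sh]
    exact sub_le_sub_left (Nat.cast_le.2 (H54.card_shadow_sh_le _ _ _)) _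
  obtain ⟨j, j1, Z, j2, j3⟩ := ih _ (hm ▸ pot_sh_lt a hK b d e)
    ⟨h1, h2, fun ℬ u v => (h.mx ℬ u v).trans h3⟩ rfl
  refine ⟨j, j1, unshift hn j1 j2 a.ne' h.int j3 ?_⟩
  have := h.mx _ h1 h2
  rw [W, W, H54.card_sh] at this
  exact_mod_cast (by linarith : ((∂ 𝒜).card : ℚ) ≤ (∂ (H54.sh y x 𝒜)).card)

end Pool.Agent.MP_d50107_co.H92
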