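import Pool.Agent.MP_d50107_co.H92.Asym

namespace Pool.Agent.MP_d50107_co.H92

open Finset
open scoped FinsetFamily

variable {n : ℕ} {f ρ τ : Finset (Fin n) → Prop} {c : ℚ} {k g : ℕ} {σ : Fin n}
  {A B : Finset (Fin n)}

/-- `σ` is pivotal for `A` -/
def pv (f : Finset (Fin n) → Prop) (σ : Fin n) (A : Finset (Fin n)) : Prop :=
  f (insert σ A) ∧ ¬ f (A.erase σ)

theorem pv_compl (hg : Good f) (h : pv f σ A) : pv f σ Aᶜ := by
  refine ⟨?_, ?_⟩
  · rw [← compl_erase, hg.dual]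
    exact h.2
  · rw [← compl_insert, hg.dual]
    exact fun e => e h.1

theorem pv_of_compl (hg : Good f) (h : pv f σ Aᶜ) : pv f σ A := by
  simpa using pv_compl hg h

theorem pv_dep (hg : Good f) (he : Ext f (σ.val + 1)) : Dep (pv f σ) σ.val := by
  intro A B h a
  refine ⟨ext_mono hg he (fun x b => ?_) a.1, fun e => a.2 (ext_mono hg he (fun x b => ?_) e)⟩
  · have := h x
    simp only [mem_insert]
    grind
  · have := h x
    simp only [mem_erase]
    grind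

theorem pv.mem (h : pv f σ A) (hσ : σ ∈ A) : f A := insert_eq_of_mem hσ ▸ h.1

theorem pv.notMem (h : pv f σ A) (hσ : σ ∉ A) : ¬ f A := erase_eq_of_notMem hσ ▸ h.2

theorem pv_ins (hg : Good f) {z : Fin n} (hz : z ∉ A) (hA : f A) (h1 : σ ∈ insert z A)
    (h : pv f σ (insert z A)) : σ ∈ A ∧ σ < z := by
  have h2 : σ ≠ z := fun e => h.2 (by rwa [e, erase_insert hz])
  have h3 : σ ∈ A := (mem_insert.1 h1).resolve_left h2
  refine ⟨h3, lt_of_le_of_ne (not_lt.1 fun e => h.2 ?_) h2⟩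
  refine cast (congrArg f ?_) (hg.shf A σ z e h3 hz hA)
  ext x
  simp only [mem_sw, mem_erase, mem_insert]
  grind

theorem pv_shf (hg : Good f) (he : Ext f (σ.val + 1)) {u v : Fin n} (hvu : v < u) (hu : u ∈ A)
    (hv : v ∉ A) (hA : f A) (h1 : σ ∈ sw A u v) (h : pv f σ (sw A u v)) :
    σ ∈ A ∧ pv f σ A ∧ (u < σ ∨ σ < v) := by
  have h2 : σ ≠ v := fun e => h.2 (ext_mono hg he (fun x a => by
    simp only [mem_sw, mem_erase]
    grind) hA)
  obtain ⟨h3, h4⟩ := (mem_sw.1 h1).resolve_left h2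
  refine ⟨h4, ⟨by rwa [insert_eq_of_mem h4], fun e => h.2 ?_⟩, ?_⟩
  · refine cast (congrArg f ?_) (hg.shf _ u v hvu (mem_erase.2 ⟨h3.symm, hu⟩) (by simp [hv]) e)
    ext x
    simp only [mem_sw, mem_erase]
    grind
  · by_contra hc
    have h5 : v < σ := by grind
    refine h.2 (ext_mono hg he (fun x a => ?_) (hg.shf A σ v h5 h4 hv hA))
    simp only [mem_sw, mem_erase]
    grind

theorem pv_miss (hg : Good f) (he : Ext f (σ.val + 1)) (hσ : 0 < σ.val) (h : pv f σ A) :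
    ∃ m : Fin n, m.val < σ.val ∧ m ∉ A := by
  by_contra hc
  push Not at hc
  obtain ⟨o, ho⟩ : ∃ o : Fin n, o.val = 0 := ⟨⟨0, by omega⟩, rfl⟩
  have h1 := hg.shf _ σ o (by rw [Fin.lt_def]; omega) (by simp)
    (by have := hc o; simp only [mem_compl, mem_erase]; grind) ((hg.dual _).2 h.2)
  refine h.2 (ext_mono hg he (fun x a => ?_) h1)
  have := hc x
  have := hc o
  simp only [mem_sw, mem_compl, mem_erase]
  grind

theorem tail_dc (hτ : Dep τ σ.val) (φ : Finset (Fin n) → ℚ)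
    (hφ : ∀ A B, τ A → (∀ x : Fin n, x.val < σ.val → (x ∈ A ↔ x ∈ B)) → φ A = φ B) :
    ((k : ℚ) - g) * ∑ C ∈ lev k fun C => σ ∉ C ∧ τ C ∧ ci σ.val C = g, φ C =
      ((n : ℚ) - σ.val - k + g) * ∑ A ∈ lev k fun A => σ ∈ A ∧ τ A ∧ ci σ.val A = g, φ A := by
  have := dc (lev k fun C => σ ∉ C ∧ τ C ∧ ci σ.val C = g)
    (lev k fun A => σ ∈ A ∧ τ A ∧ ci σ.val A = g) (hi σ) (fun B => hi σ Bᶜ)
    (fun A x => sw A x σ) (fun B x => sw B σ x) φ φ
    (fun A hA x hx => ?_) (fun B hB x hx => ?_)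
  · rw [mul_sum, mul_sum]
    refine (sum_congr rfl fun A hA => ?_).trans (this.trans (sum_congr rfl fun B hB => ?_))
    · rw [mem_lev] at hA
      have h1 := card_hi σ A
      rw [if_neg hA.2.1, hA.2.2.2, hA.1] at h1
      congr 1
      rw [sub_eq_iff_eq_add]
      exact_mod_cast (by omega)
    · rw [mem_lev] at hB
      have h1 := card_hi σ B
      have h2 := card_hi_compl σ B
      rw [if_pos hB.2.1, hB.2.2.2, hB.1] at h1
      congr 1
      have : ((hi σ Bᶜ).card : ℚ) + σ.val + k = n + g := by exact_mod_cast (by omega)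
      linarith
  · rw [mem_lev] at hA
    rw [mem_hi] at hx
    obtain ⟨a1, a2, a3, a4⟩ := hA
    have e : ∀ z : Fin n, z.val < σ.val → (z ∈ A ↔ z ∈ sw A x σ) := fun z hz => by
      simp only [mem_sw]
      grind
    exact ⟨mem_lev.2 ⟨(card_sw hx.1 a2).trans a1, by simp, hτ _ _ e a3,
      (ci_congr e).symm.trans a4⟩, by simp [hx.2, hx.2.ne'], sw_sw hx.1 a2, hφ _ _ a3 e⟩
  · rw [mem_lev] at hB
    simp only [mem_hi, mem_compl] at hx
    obtain ⟨a1, a2, a3, a4⟩ := hB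
    have e : ∀ z : Fin n, z.val < σ.val → (z ∈ B ↔ z ∈ sw B σ x) := fun z hz => by
      simp only [mem_sw]
      grind
    exact ⟨mem_lev.2 ⟨(card_sw a2 hx.1).trans a1, by simp [hx.2.ne], hτ _ _ e a3,
      (ci_congr e).symm.trans a4⟩, by simp [hx.2], sw_sw a2 hx.1⟩

theorem tail_wt (hg : Good f) (he : Ext f (σ.val + 1)) (hσ : 0 < σ.val) :
    ((k : ℚ) - g) * wt c (lev k fun C => σ ∉ C ∧ pv f σ C ∧ ci σ.val C = g) =
      ((n : ℚ) - σ.val - k + g) * wt c (lev k fun A => σ ∈ A ∧ pv f σ A ∧ ci σ.val A = g) :=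
  tail_dc (pv_dep hg he) (fun A => c - iota A) fun A B a b => by
    obtain ⟨m, h1, h2⟩ := pv_miss hg he hσ a
    rw [iota_congr h1 h2 b]

theorem tail_card (hτ : Dep τ σ.val) :
    ((k : ℚ) - g) * (lev k fun C => σ ∉ C ∧ τ C ∧ ci σ.val C = g).card =
      ((n : ℚ) - σ.val - k + g) * (lev k fun A => σ ∈ A ∧ τ A ∧ ci σ.val A = g).card := by
  simpa using tail_dc (k := k) (g := g) hτ (fun _ => 1) fun _ _ _ _ => rfl

theorem pv_R_ins (hg : Good f) (he : Ext f (σ.val + 1)) (h1 : Dep ρ σ.val) (A : Finset (Fin n))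
    (z : Fin n) (a : z ∉ A) (b : f A) (d : σ ∈ insert z A ∧ pv f σ (insert z A) ∧ ρ (insert z A)) :
    σ ∈ A ∧ pv f σ A ∧ ρ A := by
  obtain ⟨h2, h3⟩ := pv_ins hg a b d.1 d.2.1
  have e : ∀ x : Fin n, x.val < σ.val → (x ∈ insert z A ↔ x ∈ A) := fun x hx => by
    simp only [mem_insert]
    grind
  exact ⟨h2, pv_dep hg he _ _ e d.2.1, h1 _ _ e d.2.2⟩

theorem pv_R_ins' (h1 : Dep ρ σ.val) (h3 : ∀ A, ρ Aᶜ → ¬ ρ A) (A : Finset (Fin n))
    (z : Fin n) (b : σ ∈ Aᶜ ∧ pv f σ Aᶜ ∧ ρ Aᶜ) :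
    ¬ (σ ∈ insert z A ∧ pv f σ (insert z A) ∧ ρ (insert z A)) := fun d => by
  refine h3 A b.2.2 (h1 _ _ (fun x hx => ?_) d.2.2)
  have := b.1
  have := d.1
  simp only [mem_insert, mem_compl] at *
  grind

theorem pv_R_shf' (h1 : Dep ρ σ.val) (h3 : ∀ A, ρ Aᶜ → ¬ ρ A) (A : Finset (Fin n))
    {u v : Fin n} (a : v < u) (b : σ ∈ Aᶜ ∧ pv f σ Aᶜ ∧ ρ Aᶜ) :
    ¬ (σ ∈ sw A u v ∧ pv f σ (sw A u v) ∧ ρ (sw A u v)) := fun d => by
  refine h3 A b.2.2 (h1 _ _ (fun x hx => ?_) d.2.2)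
  have := b.1
  have := d.1
  simp only [mem_sw, mem_compl] at *
  grind

theorem pv_R_shf (hg : Good f) (he : Ext f (σ.val + 1)) (h1 : Dep ρ σ.val)
    (h2 : ∀ A u v, v < u → u < σ → u ∈ A → v ∉ A → ρ (sw A u v) → ρ A) (A : Finset (Fin n))
    (u v : Fin n) (a : v < u) (b : u ∈ A) (d : v ∉ A) (e : f A)
    (h : σ ∈ sw A u v ∧ pv f σ (sw A u v) ∧ ρ (sw A u v)) : σ ∈ A ∧ pv f σ A ∧ ρ A := by
  obtain ⟨h4, h5, h6⟩ := pv_shf hg he a b d e h.1 h.2.1
  refine ⟨h4, h5, h6.elim (fun h6 => h2 A u v a h6 b d h.2.2) fun h6 => h1 _ _ (fun x hx => ?_) h.2.2⟩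
  simp only [mem_sw]
  grind

theorem pv_good (hg : Good f) (he : Ext f (σ.val + 1)) (h1 : Dep ρ σ.val)
    (h2 : ∀ A u v, v < u → u < σ → u ∈ A → v ∉ A → ρ (sw A u v) → ρ A)
    (h3 : ∀ A, ρ Aᶜ → ¬ ρ A) : Good (flip f fun A => σ ∈ A ∧ pv f σ A ∧ ρ A) :=
  flip_good hg (fun _ h => h.2.1.mem h.1) (pv_R_ins hg he h1) (pv_R_shf hg he h1 h2)
    (fun A z _ b => pv_R_ins' h1 h3 A z b) fun A _ _ a _ _ b => pv_R_shf' h1 h3 A a b

theorem dep_ci {l : ℕ} : Dep (fun A : Finset (Fin n) => ci l A = g) l :=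
  fun _ _ a b => (ci_congr a).symm.trans b

theorem pv_K1 (hg : Good f) (ho : Opt c k (lev k f)) (he : Ext f (σ.val + 1)) {g' : ℕ}
    (h : g + g' = σ.val) (hne : g ≠ g') :
    wt c (lev k fun C => σ ∉ C ∧ pv f σ C ∧ ci σ.val C = g') ≤
      wt c (lev k fun A => σ ∈ A ∧ pv f σ A ∧ ci σ.val A = g) := by
  have := K1' hg ho (fun _ h => h.2.1.mem h.1) (pv_good (ρ := fun A => ci σ.val A = g) hg he dep_ci
    (fun A u v a b d e h => (ci_sw_in d e b (lt_trans a b)).symm.trans h) fun A a b => by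
      have := ci_compl σ.isLt.le A
      omega)
  refine le_trans (le_of_eq (congrArg _ (lev_congr fun A _ => ?_))) this
  have := ci_compl σ.isLt.le A
  refine and_congr (by simp) (and_congr ⟨pv_compl hg, pv_of_compl hg⟩ ?_)
  omega

theorem pv_K2 (hg : Good f) (ho : Opt c k (lev k f)) (he : Ext f (σ.val + 1))
    (hne : (lev k fun A => σ ∈ A ∧ pv f σ A ∧ ci σ.val A = g).Nonempty) :
    0 < wt c (lev k fun A => σ ∈ A ∧ pv f σ A ∧ ci σ.val A = g) :=
  K2 hg ho (fun _ h => h.2.1.mem h.1) (pv_R_shf hg he dep_ci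
    fun A u v a b d e h => (ci_sw_in d e b (lt_trans a b)).symm.trans h) hne

theorem ci_lt_of_mem (h : σ ∈ A) : ci σ.val A < A.card := by
  have := card_hi σ A
  rw [if_pos h] at this
  omega

theorem pv_E1 (hn : 2 * k < n) (hg : Good f) (ho : Opt c k (lev k f)) (he : Ext f (σ.val + 1))
    (hσ : 0 < σ.val) {g' : ℕ} (h : g + g' = σ.val) (hne : g ≠ g')
    (hP : (lev k fun A => σ ∈ A ∧ pv f σ A ∧ ci σ.val A = g).Nonempty) : n ≤ k + g' := by
  by_contra hc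
  have lt : ∀ {g : ℕ}, (lev k fun A => σ ∈ A ∧ pv f σ A ∧ ci σ.val A = g).Nonempty → g < k := by
    rintro g ⟨A, hA⟩
    rw [mem_lev] at hA
    have := ci_lt_of_mem hA.2.1
    omega
  have h1 := pv_K1 hg ho he h hne
  have h2 := pv_K1 (g := g') (g' := g) hg ho he (by omega) hne.symm
  have h3 := pv_K2 hg ho he hP
  have h4 := tail_wt (c := c) (k := k) (g := g) hg he hσ
  have h5 := tail_wt (c := c) (k := k) (g := g') hg he hσ
  have e : (σ.val : ℚ) = g + g' := by exact_mod_cast h.symm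
  have p1 : (g : ℚ) < k := by exact_mod_cast lt hP
  have p2 : (k : ℚ) + g' < n := by exact_mod_cast not_le.1 hc
  have p3 : 2 * (k : ℚ) < n := by exact_mod_cast hn
  rw [e] at h4 h5
  have h6 : 0 < wt c (lev k fun C => σ ∉ C ∧ pv f σ C ∧ ci σ.val C = g) :=
    (mul_pos_iff_of_pos_left (sub_pos.2 p1)).1 (by rw [h4]; exact mul_pos (by linarith) h3)
  have p4 : (g' : ℚ) < k := by
    refine Nat.cast_lt.2 (lt (nonempty_iff_ne_empty.2 fun e => ?_))
    rw [e] at h2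
    simp only [wt, sum_empty] at h2 h6
    linarith
  generalize wt c (lev k fun C => σ ∉ C ∧ pv f σ C ∧ ci σ.val C = g) = Q at *
  generalize wt c (lev k fun C => σ ∉ C ∧ pv f σ C ∧ ci σ.val C = g') = Q' at *
  generalize wt c (lev k fun C => σ ∈ C ∧ pv f σ C ∧ ci σ.val C = g) = P at *
  generalize wt c (lev k fun C => σ ∈ C ∧ pv f σ C ∧ ci σ.val C = g') = P' at *
  have q1 : ((n : ℚ) - k - g') * P ≤ (k - g) * P' := by nlinarith
  have q2 : ((n : ℚ) - k - g) * P' ≤ (k - g') * P := by nlinarith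
  nlinarith

theorem exists_ext (hn : 2 * k < n) (hg : Good f) (ho : Opt c k (lev k f))
    (he : Ext f (σ.val + 1)) (hσ : 0 < σ.val)
    (h : ∀ C, C.card = k → σ ∉ C → pv f σ C → 2 * ci σ.val C ≠ σ.val) :
    ∃ g, Good g ∧ lev k g = lev k f ∧ Ext g σ.val := by
  obtain ⟨o, ho'⟩ : ∃ o : Fin n, o.val = 0 := ⟨⟨0, by omega⟩, rfl⟩
  let ρ : Finset (Fin n) → Prop := fun A =>
    (σ.val < 2 * ci σ.val A ∧ σ.val < k + ci σ.val A) ∨
      (2 * ci σ.val A < σ.val ∧ k ≤ ci σ.val A) ∨ (2 * ci σ.val A = σ.val ∧ o ∉ A)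
  have h1 : Dep ρ σ.val := fun A B a b => by
    simp only [ρ, ← ci_congr a, ← a o (by omega)]
    exact b
  have p3 : 2 * (k : ℚ) < n := by exact_mod_cast hn
  refine ⟨_, pv_good (ρ := ρ) hg he h1 (fun A u v a b d e h => ?_) fun A a b => ?_,
    lev_flip (fun A a b => ?_) fun A a b => ?_, fun A z hz hA => ?_⟩
  · simp only [ρ, ci_sw_in d e b (lt_trans a b), mem_sw] at h ⊢
    grind
  · have := ci_compl σ.isLt.le A
    simp only [ρ, mem_compl] at a b
    grind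
  · obtain ⟨b1, b2, b3⟩ := b
    have h2 := ci_lt_of_mem b1
    have h3 := ci_compl σ.isLt.le A
    have hP : (lev k fun B => σ ∈ B ∧ pv f σ B ∧ ci σ.val B = ci σ.val A).Nonempty :=
      ⟨A, mem_lev.2 ⟨a, b1, b2, rfl⟩⟩
    rcases b3 with b3 | b3 | b3
    · have := pv_E1 (g' := ci σ.val Aᶜ) hn hg ho he hσ (by omega) (by omega) hP
      omega
    · omega
    · have h4 := tail_card (k := k) (g := ci σ.val A) (pv_dep hg he)
      have h5 : (lev k fun B => σ ∉ B ∧ pv f σ B ∧ ci σ.val B = ci σ.val A) = ∅ :=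
        eq_empty_of_forall_notMem fun C hC => by
          rw [mem_lev] at hC
          exact h C hC.1 hC.2.1 hC.2.2.1 (by omega)
      rw [h5, card_empty, Nat.cast_zero, mul_zero] at h4
      have p1 : (0 : ℚ) < _ := Nat.cast_pos.2 (card_pos.2 hP)
      have p2 : (2 * ci σ.val A : ℚ) = σ.val := by exact_mod_cast b3.1
      have p4 : (ci σ.val A : ℚ) < k := by exact_mod_cast (by omega)
      exact (mul_pos (by linarith) p1).ne h4
  · obtain ⟨b1, b2, b3⟩ := b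
    rw [mem_compl] at b1
    replace b2 := pv_of_compl hg b2
    have h2 := ci_le_card σ.val A
    have h3 := ci_compl σ.isLt.le A
    rcases b3 with b3 | b3 | b3
    · have h4 := tail_card (k := k) (g := ci σ.val A) (pv_dep hg he)
      have p1 : (0 : ℚ) < (lev k fun B => σ ∉ B ∧ pv f σ B ∧ ci σ.val B = ci σ.val A).card :=
        Nat.cast_pos.2 (card_pos.2 ⟨A, mem_lev.2 ⟨a, b1, b2, rfl⟩⟩)
      have p4 : (ci σ.val A : ℚ) < k := by exact_mod_cast (by omega)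
      have p5 := mul_pos (sub_pos.2 p4) p1
      rw [h4] at p5
      have hP : (lev k fun B => σ ∈ B ∧ pv f σ B ∧ ci σ.val B = ci σ.val A).Nonempty :=
        nonempty_iff_ne_empty.2 fun e => by simp [e] at p5
      have h5 := pv_E1 (g' := ci σ.val Aᶜ) hn hg ho he hσ (by omega) (by omega) hP
      have p6 : (n : ℚ) + ci σ.val A ≤ k + σ.val := by exact_mod_cast (by omega)
      exact absurd p5 (not_lt.2 (mul_nonpos_of_nonpos_of_nonneg (by linarith) (Nat.cast_nonneg _)))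
    · omega
    · exact h A a b1 b2 (by omega)
  · rcases hz.eq_or_lt with e | e
    · obtain rfl : σ = z := Fin.ext e
      by_cases hσA : σ ∈ A
      swap
      · rwa [erase_eq_of_notMem hσA]
      have h6 := hA.resolve_right fun e => mem_compl.1 e.1 hσA
      by_cases h7 : f (A.erase σ)
      · exact Or.inl ⟨h7, fun e => notMem_erase _ _ e.1⟩
      have h8 : pv f σ A := ⟨hg.ins _ _ h6.1, h7⟩
      have e1 : ∀ x : Fin n, x.val < σ.val → (x ∈ Aᶜ ↔ x ∈ (A.erase σ)ᶜ) := fun x hx => by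
        simp only [mem_compl, mem_erase]
        grind
      refine Or.inr ⟨by simp, pv_dep hg he _ _ e1 (pv_compl hg h8), h1 _ _ e1 ?_⟩
      have h9 : ¬ ρ A := fun e => h6.2 ⟨hσA, h8, e⟩
      have := ci_compl σ.isLt.le A
      simp only [ρ, mem_compl] at h9 ⊢
      grind
    · refine Ext.flip he (fun A B a b => ?_) A z e hA
      exact ⟨(a σ (by omega)).1 b.1, pv_dep hg he _ _ (fun x hx => a x (by omega)) b.2.1,
        h1 _ _ (fun x hx => a x (by omega)) b.2.2⟩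

end Pool.Agent.MP_d50107_co.H92
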