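import Pool.Agent.MP_d50107_co.H92.Last

namespace Pool.Agent.MP_d50107_co.H92

open Finset
open scoped FinsetFamily

variable {n : ℕ} {f : Finset (Fin n) → Prop} {c : ℚ} {k h i l s : ℕ} {σ y : Fin n}
  {A B C : Finset (Fin n)} {𝒜 : Finset (Finset (Fin n))}

theorem ci_le_shf {u v : Fin n} (hvu : v < u) (hu : u ∈ A) (hv : v ∉ A) :
    ci l A ≤ ci l (sw A u v) := by
  by_cases h1 : u.val < l
  · exact (ci_sw_in hu hv h1 (lt_trans hvu h1)).ge
  · exact ci_mono fun x a b => mem_sw.2 (Or.inr ⟨fun e => h1 (e ▸ a), b⟩)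

theorem exists_good (hn : 2 * k < n) (h1 : 𝒜 ⊆ powersetCard k univ) (hi : H54.Inter 𝒜)
    (hs : Shifted 𝒜) : ∃ f, Good f ∧ lev k f = 𝒜 := by
  let up : Finset (Fin n) → Prop := fun A => ∃ B ∈ 𝒜, B ⊆ A
  have u1 : ∀ A B, A ⊆ B → up A → up B := fun A B a ⟨D, b, d⟩ => ⟨D, b, d.trans a⟩
  have u2 : ∀ A u v, v < u → u ∈ A → v ∉ A → up A → up (sw A u v) := by
    rintro A u v a b d ⟨D, e, g⟩
    by_cases hu : u ∈ D
    · refine ⟨_, hs D e u v a hu fun e' => d (g e'), fun x => ?_⟩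
      have := @g x
      simp only [mem_sw]
      grind
    · refine ⟨D, e, fun x => ?_⟩
      have := @g x
      simp only [mem_sw]
      grind
  have u3 : ∀ A, up A → ¬ up Aᶜ := by
    rintro A ⟨D, a, b⟩ ⟨E, d, e⟩
    obtain ⟨x, x1, x2⟩ := hi D a E d
    exact mem_compl.1 (e x2) (b x1)
  refine ⟨fun A => up A ∨ (¬ up Aᶜ ∧ k + 1 ≤ ci (2 * k + 1) A), ⟨fun A z => ?_,
    fun A u v a b d => ?_, fun A => ?_⟩, ?_⟩
  · refine Or.imp (u1 _ _ (subset_insert _ _)) (And.imp (mt (u1 _ _ ?_)) fun e => e.trans ?_)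
    · exact compl_subset_compl.2 (subset_insert _ _)
    · exact ci_mono fun x _ => mem_insert_of_mem
  · refine Or.imp (u2 A u v a b d) (And.imp (mt fun e => ?_) fun e => e.trans (ci_le_shf a b d))
    rw [← sw_compl_sw b d]
    exact u2 _ u v a (by simp [a.ne']) (by simp) e
  · have := u3 A
    have := ci_compl (l := 2 * k + 1) hn A
    rw [compl_compl]
    grind
  · ext A
    rw [mem_lev]
    constructor
    · rintro ⟨a, ⟨D, b, d⟩ | ⟨-, b⟩⟩
      · rwa [← eq_of_subset_of_card_le d (by rw [a, (mem_powersetCard.1 (h1 b)).2])]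
      · have := ci_le_card (2 * k + 1) A
        omega
    · exact fun a => ⟨(mem_powersetCard.1 (h1 a)).2, Or.inl ⟨A, a, Subset.refl _⟩⟩

theorem no_asym_top (hg : Good f) (he : Ext f (σ.val + 1)) (hs : Sym f σ.val) (h1 : σ ∉ C)
    (h2 : pv f σ C) (A : Finset (Fin n)) : ¬ asym f σ A := by
  rintro ⟨a1, a2, x, a3, a4, a5⟩
  by_cases e : ci σ.val A ≤ ci σ.val C
  · refine h2.notMem h1 (sym_mono hg he hs e (fun z a b d => ?_) a2)
    exact (a1 ((Fin.ext (by omega) : z = σ) ▸ d)).elim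
  · have := ci_sw_up a4 a3 (le_refl σ.val)
    refine a5 (sym_mono hg he hs ?_ (fun z a b _ => ?_) h2.1)
    · rw [ci_insert_out le_rfl]
      omega
    · exact mem_sw.2 (Or.inl (Fin.ext (by omega)))

theorem no_asym_next (hg : Good f) (he : Ext f (σ.val + 1)) (hs : Sym f y.val)
    (hy : y.val + 1 = σ.val) (h1 : σ ∉ C) (h2 : pv f σ C) (h3 : 2 * ci σ.val C = σ.val)
    (hA : asym f y A) (h4 : 2 * ci y.val A = σ.val) : False := by
  have hy' : y.val < σ.val := by omega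
  wlog hC : y ∉ C generalizing C
  · have e := ci_kap (le_refl σ.val) C
    exact this (C := kap σ C) (by simp [mem_kap, h1]) (pv_kap hg he h2) (by omega)
      (by simp [mem_kap, hy', not_not.1 hC])
  have b1 := ci_succ C (rfl : y.val = y.val)
  rw [if_neg hC, hy] at b1
  have b2 := ci_kap hy'.le C
  obtain ⟨a1, a2, x, a3, a4, a5⟩ := hA
  by_cases e : σ ∈ A
  · have := ci_sw_up a4 a3 (le_refl y.val)
    refine a5 (sym_mono hg he hs ?_ (fun z a b _ => ?_) (pv_kap hg he h2).1)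
    · rw [ci_insert_out hy'.le]
      omega
    · simp only [mem_sw]
      grind
  · refine h2.notMem h1 (sym_mono hg he hs (by omega) (fun z a b d => ?_) a2)
    grind

theorem sym_step (hn : 2 * k < n) (hg : Good f) (ho : Opt c k (lev k f)) (he : Ext f s)
    (hs : Sym f l) (hl : l < s) (hsn : s ≤ n)
    (hmin : ∀ g, Good g → lev k g = lev k f → ¬ Ext g (s - 1)) :
    ∃ g, Good g ∧ lev k g = lev k f ∧ Ext g s ∧ Sym g (l + 1) := by
  obtain ⟨y, rfl⟩ : ∃ y : Fin n, y.val = l := ⟨⟨l, by omega⟩, rfl⟩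
  obtain ⟨σ, rfl⟩ : ∃ σ : Fin n, σ.val + 1 = s := ⟨⟨s - 1, by omega⟩, by simp only; omega⟩
  rcases Nat.eq_zero_or_pos σ.val with hσ | hσ
  · refine ⟨f, hg, rfl, he, fun A u v a b d e => ?_⟩
    exact (e ((Fin.ext (by omega) : u = v) ▸ d)).elim
  obtain ⟨C, c1, c2, c3, c4⟩ : ∃ C, C.card = k ∧ σ ∉ C ∧ pv f σ C ∧ 2 * ci σ.val C = σ.val := by
    by_contra hc
    obtain ⟨g, g1, g2, g3⟩ := exists_ext hn hg ho he hσ fun C a b d e => hc ⟨C, a, b, d, e⟩
    exact hmin g g1 g2 g3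
  rcases (Nat.lt_succ_iff.1 hl).eq_or_lt with e | e
  · obtain rfl : y = σ := Fin.ext e
    exact ⟨f, hg, rfl, he, sym_succ hg hs (no_asym_top hg he hs c2 c3)⟩
  refine exists_sym_succ hg he hs (by omega) hsn fun A a b => ?_
  have h1 := asym_class hg hs ho a b
  obtain ⟨i, hi⟩ : ∃ i, y.val = 2 * i + 1 := ⟨ci y.val A - 1, by omega⟩
  by_cases e' : i + 1 < ci σ.val C
  · exact last_move hn hg ho he hs hi c4.symm e' (z_move hg hs ho hi a b) c1 c2 c3 rfl
  · exact no_asym_next hg he hs (by omega) c2 c3 c4 b (by omega)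

theorem sym_all (hg : Good f) (he : Ext f s) (hs : Sym f s) (hsn : s ≤ n) :
    ∃ j, 2 * j + 1 ≤ n ∧ ∀ A, f A ↔ j + 1 ≤ ci (2 * j + 1) A := by
  have h1 : ∀ A, f A → s < 2 * ci s A := fun A a => by
    by_contra hc
    have := ci_compl hsn A
    exact (hg.dual A).1 (sym_mono hg he hs (by omega) (fun x b d => by omega) a) a
  have h2 : ∀ A, ¬ f A → 2 * ci s A < s := fun A a => by
    have := h1 _ ((hg.dual A).2 a)
    have := ci_compl hsn A
    omega
  obtain ⟨j, rfl | rfl⟩ := Nat.even_or_odd' s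
  · exfalso
    have h3 : ci (2 * j) (lo j univ : Finset (Fin n)) = j := by
      refine Eq.trans ?_ (ci_univ (n := n) (l := j) (by omega))
      unfold ci
      congr 1
      ext x
      simp only [mem_lo]
      grind
    by_cases e : f (lo j univ)
    · have := h1 _ e
      omega
    · have := h2 _ e
      omega
  · refine ⟨j, hsn, fun A => ⟨fun a => ?_, fun a => by_contra fun b => ?_⟩⟩
    · have := h1 A a
      omega
    · have := h2 A b
      omega

theorem opt_struct (hn : 2 * k < n) (h1 : 𝒜 ⊆ powersetCard k univ) (hi : H54.Inter 𝒜)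
    (hs : Shifted 𝒜) (ho : Opt c k 𝒜) :
    ∃ j, 2 * j + 1 ≤ n ∧ 𝒜 = lev k fun B => j + 1 ≤ ci (2 * j + 1) B := by
  classical
  have hP : ∃ f, Good f ∧ lev k f = 𝒜 ∧ Ext f n := by
    obtain ⟨f, a, b⟩ := exists_good hn h1 hi hs
    exact ⟨f, a, b, fun A z d => absurd z.isLt (not_lt.2 d)⟩
  have hex : ∃ s, ∃ f, Good f ∧ lev k f = 𝒜 ∧ Ext f s := ⟨n, hP⟩
  have hsn : Nat.find hex ≤ n := Nat.find_min' hex hP
  have key : ∀ l ≤ Nat.find hex, ∃ f, Good f ∧ lev k f = 𝒜 ∧ Ext f (Nat.find hex) ∧ Sym f l := by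
    intro l
    induction l with
    | zero =>
      obtain ⟨f, a, b, d⟩ := Nat.find_spec hex
      exact fun _ => ⟨f, a, b, d, fun _ _ _ e => absurd e (Nat.not_lt_zero _)⟩
    | succ l ih =>
      intro hl
      obtain ⟨f, a, b, d, e⟩ := ih (by omega)
      obtain ⟨g, g1, g2, g3⟩ := sym_step hn a (b ▸ ho) d e hl hsn fun g g1 g2 g3 =>
        Nat.find_min hex (m := Nat.find hex - 1) (by omega) ⟨g, g1, g2.trans b, g3⟩
      exact ⟨g, g1, g2.trans b, g3⟩
  obtain ⟨f, a, b, d, e⟩ := key _ le_rfl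
  obtain ⟨j, j1, j2⟩ := sym_all a d e hsn
  exact ⟨j, j1, b ▸ lev_congr fun A _ => j2 A⟩

end Pool.Agent.MP_d50107_co.H92
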